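import Pool.Agent.Helper54.TJ.Defs
import Pool.Agent.Helper54.PW.Final
import Pool.Agent.Helper54.SL.Main

/-!
# TRI-03: the group is even

`N = tN p = 2 (p-2) (p-1)`, `TR p x y : y ^ 2 = x ^ N * (1 + y) ^ p` (characteristic `p`, so `(1+y)^p = 1 + y^p`).
For the valuation facts see Helper18/PW/Places1.lean (ff_of_algebraic, exists_place_extension, val_const), `residue`
(every `a` in `A` is congruent to a constant), `stab_sub_mem_nonunits` of Helper54/PW/Main2.lean (`σ a - a` is a nonunit for
`a ∈ A`, `σ` stabilizing `A`), and the use of the SL modules in Helper54/SL/Main.lean.  `|.| = A.valuation`, `x = tX k L`.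

PROOF.
`Δ = ∏_{i<j} (r_j - r_i)` (Vandermonde determinant).  `Δ^2 = ± ∏_i ∏_{j ≠ i} (r_i - r_j) = ± ∏_i (-2 r_i / x^N) = c x^(-N p)`
with a nonzero constant `c ∈ k` (`hder`, `hprod`); `N` is even, so `(Δ x^(N p / 2))^2 = c`, so `Δ x^(N p / 2)` is a constant
(a square root of `c` in `k`), so `σ Δ = Δ`; but `σ Δ = sign(π) Δ` (`Matrix.det_permute`, `Matrix.det_vandermonde`), `Δ ≠ 0` and
the characteristic is not `2`.
-/

set_option autoImplicit false
set_option linter.unusedVariables false
set_option linter.unusedSectionVars false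
open scoped Pointwise

namespace Pool.Agent.Helper54.TJ

open Pool.Agent.Helper54.PW Pool.Agent.Helper54.SL Pool.Agent.Helper54.FP

variable {p : ℕ} [Fact p.Prime] {k : Type} [Field k] [IsAlgClosed k] [CharP k p]
variable {L : Type} [Field L] [Algebra (RatFunc k) L] [FiniteDimensional (RatFunc k) L]
  [IsGalois (RatFunc k) L] (r : Fin p → L) (hinj : Function.Injective r)
  (hroot : ∀ i, TR p (tX k L) (r i)) (hall : ∀ y : L, TR p (tX k L) y → ∃ i, y = r i)
  (hgen : IntermediateField.adjoin (RatFunc k) (Set.range r) = ⊤) (hprod : ∏ i, r i = -1)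
  (hder : ∀ i, -2 * r i = tX k L ^ tN p * ∏ j ∈ Finset.univ.erase i, (r i - r j))

include hinj hprod hder in
theorem tri_even (hp5 : 5 ≤ p) (σ : L ≃ₐ[RatFunc k] L) (π : Equiv.Perm (Fin p))
    (hπ : ∀ i, σ (r i) = r (π i)) : Equiv.Perm.sign π = 1 := by
  classical
  have hp : p.Prime := Fact.out
  -- the characteristic is not two
  have h2k : (2 : k) ≠ 0 := by
    intro h
    have h1 : ((2 : ℕ) : k) = 0 := by exact_mod_cast h
    rw [CharP.cast_eq_zero_iff k p 2] at h1
    have := Nat.le_of_dvd (by norm_num) h1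
    omega
  let j : k →+* L := (algebraMap (RatFunc k) L).comp (algebraMap k (RatFunc k))
  have hj : ∀ c, j c = algebraMap (RatFunc k) L (algebraMap k (RatFunc k) c) := fun _ => rfl
  have hσj : ∀ c, σ (j c) = j c := fun c => σ.commutes _
  have h2L : (2 : L) ≠ 0 := by
    intro h
    apply h2k
    apply j.injective
    rw [map_ofNat, map_zero, h]
  have hX0 : tX k L ≠ 0 := by
    rw [tX]
    exact (map_ne_zero _).2 RatFunc.X_ne_zero
  have hσX : σ (tX k L) = tX k L := σ.commutes _
  obtain ⟨Δ, hΔ⟩ : ∃ Δ : L, Δ = (Matrix.vandermonde r).det := ⟨_, rfl⟩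
  have hΔ' : Δ = ∏ i, ∏ l ∈ Finset.Ioi i, (r l - r i) := by
    rw [hΔ, Matrix.det_vandermonde]
  have hΔ0 : Δ ≠ 0 := by
    rw [hΔ]
    exact Matrix.det_vandermonde_ne_zero_iff.2 hinj
  -- the action on the Vandermonde determinant
  have hσΔ : σ Δ = ((Equiv.Perm.sign π : ℤˣ) : ℤ) * Δ := by
    have h1 : σ Δ = (Matrix.vandermonde (fun i => r (π i))).det := by
      rw [hΔ', map_prod, Matrix.det_vandermonde]
      refine Finset.prod_congr rfl fun i _ => ?_
      rw [map_prod]
      refine Finset.prod_congr rfl fun l _ => ?_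
      rw [map_sub, hπ, hπ]
    have h2 : Matrix.vandermonde (fun i => r (π i)) = (Matrix.vandermonde r).submatrix π id := rfl
    rw [h1, h2, Matrix.det_permute, ← hΔ]
  -- the square of the Vandermonde determinant
  obtain ⟨ε, hε⟩ : ∃ ε : k, ε = ∏ i : Fin p, ∏ l ∈ Finset.Ioi i, (-1 : k) := ⟨_, rfl⟩
  have hε2 : ε * ε = 1 := by
    rw [hε, ← Finset.prod_mul_distrib]
    apply Finset.prod_eq_one
    intro i _
    rw [← Finset.prod_mul_distrib]
    apply Finset.prod_eq_one
    intro l _
    ring
  have hsplit : ∏ i, ∏ l ∈ Finset.univ.erase i, (r i - r l) = j ε * (Δ * Δ) := by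
    have h1 : ∀ i : Fin p, ∏ l ∈ Finset.univ.erase i, (r i - r l) =
        (∏ l ∈ Finset.Ioi i, (r i - r l)) * ∏ l ∈ Finset.Iio i, (r i - r l) := by
      intro i
      rw [← Finset.prod_union]
      · apply Finset.prod_congr _ fun _ _ => rfl
        ext l
        simp only [Finset.mem_erase, Finset.mem_univ, and_true, Finset.mem_union,
          Finset.mem_Ioi, Finset.mem_Iio]
        constructor
        · intro h
          rcases lt_or_gt_of_ne h with h | h
          · exact Or.inr h
          · exact Or.inl h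
        · rintro (h | h)
          · exact ne_of_gt h
          · exact ne_of_lt h
      · rw [Finset.disjoint_left]
        intro l h h'
        rw [Finset.mem_Ioi] at h
        rw [Finset.mem_Iio] at h'
        exact absurd h (not_lt.2 h'.le)
    rw [Finset.prod_congr rfl fun i _ => h1 i, Finset.prod_mul_distrib]
    have h2 : ∏ i : Fin p, ∏ l ∈ Finset.Iio i, (r i - r l) = Δ := by
      rw [hΔ']
      apply Finset.prod_comm'
      intro x y
      simp
    have h3 : ∏ i : Fin p, ∏ l ∈ Finset.Ioi i, (r i - r l) = j ε * Δ := by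
      rw [hΔ', hε, map_prod, ← Finset.prod_mul_distrib]
      refine Finset.prod_congr rfl fun i _ => ?_
      rw [map_prod, ← Finset.prod_mul_distrib]
      refine Finset.prod_congr rfl fun l _ => ?_
      rw [map_neg, map_one]
      ring
    rw [h2, h3]
    ring
  have hprod2 : (-2 : L) ^ p * -1 = (tX k L ^ tN p) ^ p * (j ε * (Δ * Δ)) := by
    rw [← hsplit, ← hprod]
    have h1 : ∏ i, (-2 * r i) = ∏ i, (tX k L ^ tN p * ∏ l ∈ Finset.univ.erase i, (r i - r l)) :=
      Finset.prod_congr rfl fun i _ => hder i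
    rw [Finset.prod_mul_distrib, Finset.prod_mul_distrib, Finset.prod_const, Finset.prod_const,
      Finset.card_univ, Fintype.card_fin] at h1
    exact h1
  have hN : tN p = (p - 2) * (p - 1) + (p - 2) * (p - 1) := by
    unfold tN
    ring
  obtain ⟨w, hw⟩ : ∃ w : L, w = (tX k L ^ ((p - 2) * (p - 1))) ^ p * Δ := ⟨_, rfl⟩
  have hw2 : w * w = j ((-2) ^ p * -1 * ε) := by
    have h1 : j ε * j ε = 1 := by rw [← map_mul, hε2, map_one]
    have h2 : w * w * j ε = (-2 : L) ^ p * -1 := by
      rw [hprod2, hN, hw, pow_add, mul_pow]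
      ring
    have h3 : w * w = w * w * j ε * j ε := by rw [mul_assoc, h1, mul_one]
    rw [h3, h2, map_mul, map_mul, map_pow, map_neg, map_neg, map_one, map_ofNat]
  obtain ⟨d, hd⟩ := IsAlgClosed.exists_pow_nat_eq ((-2) ^ p * -1 * ε : k) (n := 2) (by norm_num)
  have hw3 : w = j d ∨ w = -j d := by
    rw [← sq_eq_sq_iff_eq_or_eq_neg, ← map_pow, hd, sq, hw2]
  have hσw : σ w = w := by
    rcases hw3 with h | h
    · rw [h, hσj]
    · rw [h, map_neg, hσj]
  have hσΔ2 : σ Δ = Δ := by
    have h1 : (tX k L ^ ((p - 2) * (p - 1))) ^ p ≠ 0 := pow_ne_zero _ (pow_ne_zero _ hX0)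
    have h2 := hσw
    rw [hw, map_mul, map_pow, map_pow, hσX] at h2
    exact mul_left_cancel₀ h1 h2
  rcases Int.units_eq_one_or (Equiv.Perm.sign π) with h | h
  · exact h
  · exfalso
    rw [hσΔ2, h] at hσΔ
    have h1 : (2 : L) * Δ = 0 := by
      push_cast at hσΔ
      linear_combination hσΔ
    rcases mul_eq_zero.1 h1 with h | h
    · exact h2L h
    · exact hΔ0 h

end Pool.Agent.Helper54.TJ
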