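import Pool.Agent.Helper54.TJ.Defs
import Pool.Agent.Helper54.PW.Final
import Pool.Agent.Helper54.SL.Main

/-!
# TRI-04: finite places

`N = tN p = 2 (p-2) (p-1)`, `TR p x y : y ^ 2 = x ^ N * (1 + y) ^ p` (characteristic `p`, so `(1+y)^p = 1 + y^p`).
For the valuation facts see Helper18/PW/Places1.lean (ff_of_algebraic, exists_place_extension, val_const), `residue`
(every `a` in `A` is congruent to a constant), `stab_sub_mem_nonunits` of Helper54/PW/Main2.lean (`σ a - a` is a nonunit for
`a ∈ A`, `σ` stabilizing `A`), and the use of the SL modules in Helper54/SL/Main.lean.  `|.| = A.valuation`, `x = tX k L`.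

PROOF.
Let `c` be the residue of `x` at `A` (`x ∈ A`).  Difference equation for `i ≠ j`: `x^N (r_i - r_j)^(p-1) = r_i + r_j` (subtract the
two equations, `(1+r_i)^p - (1+r_j)^p = (r_i - r_j)^p`, divide by `r_i - r_j`).
Case `c ≠ 0` (`|x| = 1`): `|r_i| ≤ 1`, then `|1+r_i| = 1`, `|r_i| = 1` (from the equation; if `|r_i| < 1` then the right side has
absolute value one); `r_i ≡ r_j` modulo the maximal ideal would give `2 r_i ≡ 0`.  So the residues of the `r_i` are distinct, and
`σ r_i = r_j` has the same residue as `r_i`.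
Case `c = 0` (`|x| < 1`): `|r| = 1` is impossible (`|1+r| ≤ 1`, so `|r|^2 < 1`).  `|r| < 1`: `κ = r / x^(N/2)`, `κ^2 = (1+r)^p`,
`|κ| = 1`; two distinct small roots have `κ_i + κ_j = x^(N/2) (r_i - r_j)^(p-1) ≡ 0`, so they have different residues.
`|r| > 1`: `W = 1/r`, `W^(p-2) = x^N (1+W)^p`, `κ = W / x^(N/(p-2))`, `N/(p-2) = 2(p-1)`, `κ^(p-2) = (1+W)^p`, `|κ| = 1`; for two
distinct big roots `κ_i^(p-2) - κ_j^(p-2) = (W_i - W_j)^p`; divide by `κ_i - κ_j` (`W_i - W_j = x^(2(p-1)) (κ_i - κ_j)`):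
`∑_{a+b=p-3} κ_i^a κ_j^b ≡ 0`, so `κ_i ≢ κ_j` (else `(p-2) κ^(p-3) ≡ 0`).  `σ` fixes `x`, maps small roots to small roots and
big ones to big ones and fixes the residue of `κ`; so `σ r_i = r_i`.
-/

set_option autoImplicit false
set_option linter.unusedVariables false
set_option linter.unusedSectionVars false
open scoped Pointwise

namespace Pool.Agent.Helper54.TJ

open Pool.Agent.Helper54.PW Pool.Agent.Helper54.SL Pool.Agent.Helper54.FP

variable {p : ℕ} [Fact p.Prime] {k : Type} [Field k] [IsAlgClosed k] [CharP k p]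
variable {L : Type} [Field L] [Algebra (RatFunc k) L] [FiniteDimensional (RatFunc k) L]
  [IsGalois (RatFunc k) L] (r : Fin p → L) (hinj : Function.Injective r)
  (hroot : ∀ i, TR p (tX k L) (r i)) (hall : ∀ y : L, TR p (tX k L) y → ∃ i, y = r i)
  (hgen : IntermediateField.adjoin (RatFunc k) (Set.range r) = ⊤) (hprod : ∏ i, r i = -1)
  (hder : ∀ i, -2 * r i = tX k L ^ tN p * ∏ j ∈ Finset.univ.erase i, (r i - r j))

omit [IsAlgClosed k] [CharP k p] [Algebra (RatFunc k) L] [FiniteDimensional (RatFunc k) L]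
  [IsGalois (RatFunc k) L] in
private theorem tri_fin_key [IsAlgClosed k] [Algebra k L] {M : Type} [Field M] [Algebra k M]
    [Algebra M L] [IsScalarTower k M L] [CharP L p] (hF : FF k L) (A : ValuationSubring L)
    (hA : IsPlace k A) (σ : L ≃ₐ[M] L) (hσ : σ • A = A) (κ y u : L) (m : ℕ) (hm : 0 < m)
    (hmv : A.valuation (m : L) = 1) (hκ : A.valuation κ = 1) (hy : y ∈ A)
    (hu : A.valuation u = 1) (hσy : σ y = y) (hσu : σ u = u)
    (h : u * κ ^ m = (1 + y * κ) ^ p) : σ κ = κ := by
  have hp : p.Prime := Fact.out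
  have hκA : κ ∈ A := (A.valuation_le_one_iff _).1 hκ.le
  have hδ := stab_sub_mem_nonunits hF A hA σ hσ κ hκA
  by_contra hne
  have hδ0 : σ κ - κ ≠ 0 := sub_ne_zero.2 hne
  obtain ⟨δ, hδd⟩ : ∃ δ : L, δ = σ κ - κ := ⟨_, rfl⟩
  rw [← hδd] at hδ hδ0
  have hσκ : σ κ = κ + δ := by
    rw [hδd]
    ring
  have hδA : δ ∈ A := A.nonunits_subset hδ
  obtain ⟨q, hq⟩ := Polynomial.powAddExpansion (⟨κ, hκA⟩ : A) (⟨δ, hδA⟩ : A) m
  have hq' : (κ + δ) ^ m = κ ^ m + m * κ ^ (m - 1) * δ + q * δ ^ 2 := by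
    have h1 := congrArg (fun z : A => (z : L)) hq
    simpa using h1
  have h1 := congrArg σ h
  rw [map_mul, map_pow, map_pow, map_add, map_one, map_mul, hσu, hσy, hσκ] at h1
  have h2 : (1 + y * (κ + δ)) ^ p = (1 + y * κ) ^ p + (y * δ) ^ p := by
    rw [← add_pow_char]
    congr 1
    ring
  rw [h2, ← h, hq'] at h1
  have h3 : δ ^ p = δ ^ (p - 1) * δ := by
    rw [← pow_succ]
    congr 1
    have := hp.pos
    omega
  have h4 : u * (m * κ ^ (m - 1)) * δ = (y ^ p * δ ^ (p - 1) - u * (q * δ)) * δ := by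
    rw [mul_pow, h3] at h1
    linear_combination h1
  have h5 := mul_right_cancel₀ hδ0 h4
  have h6 : A.valuation (u * (m * κ ^ (m - 1))) = 1 := by
    rw [map_mul, map_mul, map_pow, hu, hmv, hκ, one_pow, one_mul, one_mul]
  rw [ValuationSubring.mem_nonunits_iff] at hδ
  have h7 : A.valuation (y ^ p * δ ^ (p - 1)) < 1 := by
    rw [map_mul, map_pow, map_pow, mul_comm]
    refine mul_lt_one_of_lt_of_le ?_ (pow_le_one₀ zero_le ((A.valuation_le_one_iff _).2 hy))
    exact pow_lt_one₀ zero_le hδ (by have := hp.two_le; omega)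
  have h8 : A.valuation (u * (q * δ)) < 1 := by
    rw [map_mul, map_mul, hu, one_mul, mul_comm]
    exact mul_lt_one_of_lt_of_le hδ ((A.valuation_le_one_iff _).2 q.2)
  have h9 : A.valuation (y ^ p * δ ^ (p - 1) - u * (q * δ)) < 1 :=
    lt_of_le_of_lt (Valuation.map_sub _ _ _) (max_lt h7 h8)
  rw [← h5, h6] at h9
  exact lt_irrefl _ h9

include hinj hroot in
theorem tri_finite (hp5 : 5 ≤ p) [Algebra k L] [IsScalarTower k (RatFunc k) L] (hF : FF k L)
    (A : ValuationSubring L) (hA : IsPlace k A) (hX : tX k L ∈ A) (σ : L ≃ₐ[RatFunc k] L)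
    (hσ : σ • A = A) (hσr : ∀ i, ∃ j, σ (r i) = r j) (i : Fin p) : σ (r i) = r i := by
  classical
  have hp : p.Prime := Fact.out
  have : CharP L p := charP_of_injective_algebraMap (algebraMap k L).injective p
  have hcast : ∀ m : ℕ, 0 < m → m < p → A.valuation (m : L) = 1 := by
    intro m hm0 hmp
    have h1 : (m : L) = algebraMap k L (m : k) := (map_natCast _ _).symm
    rw [h1]
    apply val_const A hA.2
    rw [Ne, CharP.cast_eq_zero_iff k p m]
    intro h
    have := Nat.le_of_dvd hm0 h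
    omega
  have hσX : ∀ n : ℕ, σ (tX k L ^ n) = tX k L ^ n := by
    intro n
    rw [map_pow]
    congr 1
    exact σ.commutes _
  have hX0 : tX k L ≠ 0 := by
    rw [tX]
    exact (map_ne_zero _).2 RatFunc.X_ne_zero
  obtain ⟨a, ha⟩ : ∃ a : L, a = r i := ⟨_, rfl⟩
  rw [← ha]
  have heq : a ^ 2 = tX k L ^ tN p * (1 + a) ^ p := by
    rw [ha]
    exact hroot i
  have hveq := congrArg A.valuation heq
  rw [map_pow, map_mul, map_pow, map_pow] at hveq
  have hvlt : A.valuation a < 1 → A.valuation (1 + a) = 1 := by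
    intro h
    rw [A.valuation.map_add_eq_of_lt_left (by rw [map_one]; exact h), map_one]
  have hvgt : 1 < A.valuation a → A.valuation (1 + a) = A.valuation a := by
    intro h
    rw [A.valuation.map_add_eq_of_lt_right (by rw [map_one]; exact h)]
  have hxle : A.valuation (tX k L) ≤ 1 := (A.valuation_le_one_iff _).2 hX
  have hone : ∀ {z : L} {n : ℕ}, n ≠ 0 → A.valuation (z ^ n) = 1 → A.valuation z = 1 := by
    intro z n hn h
    rw [map_pow] at h
    rcases lt_trichotomy (A.valuation z) 1 with h1 | h1 | h1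
    · have h2 := pow_lt_one₀ zero_le h1 hn
      rw [h] at h2
      exact absurd h2 (lt_irrefl _)
    · exact h1
    · have h2 := one_lt_pow₀ h1 hn
      rw [h] at h2
      exact absurd h2 (lt_irrefl _)
  rcases hxle.lt_or_eq with hx | hx
  · -- the place `x = 0`
    rcases lt_trichotomy (A.valuation a) 1 with h | h | h
    · -- small roots
      have hN : tN p = 2 * ((p - 2) * (p - 1)) := by
        unfold tN
        ring
      obtain ⟨y, hy⟩ : ∃ y : L, y = tX k L ^ ((p - 2) * (p - 1)) := ⟨_, rfl⟩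
      have hy0 : y ≠ 0 := by rw [hy]; exact pow_ne_zero _ hX0
      have hyA : y ∈ A := by rw [hy]; exact pow_mem hX _
      have hσy : σ y = y := by rw [hy]; exact hσX _
      obtain ⟨κ, hκ⟩ : ∃ κ : L, κ = a / y := ⟨_, rfl⟩
      have haκ : a = y * κ := by
        rw [hκ]
        field_simp
      have h1 : 1 * κ ^ 2 = (1 + y * κ) ^ p := by
        rw [← haκ, hκ, div_pow, heq, hN, mul_comm 2, pow_mul, ← hy]
        field_simp
      have h2 : A.valuation κ = 1 := by
        apply hone two_ne_zero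
        rw [one_mul, ← haκ] at h1
        rw [h1, map_pow, hvlt h, one_pow]
      have h3 := tri_fin_key (p := p) hF A hA σ hσ κ y 1 2 two_pos
        (hcast 2 two_pos (by omega)) h2 hyA (map_one _) hσy (map_one _) h1
      rw [haκ, map_mul, hσy, h3]
    · exfalso
      rw [h, one_pow] at hveq
      have h1 : A.valuation (1 + a) ≤ 1 := by
        rw [A.valuation_le_one_iff]
        exact A.add_mem _ _ A.one_mem ((A.valuation_le_one_iff _).1 h.le)
      have hN0 : tN p ≠ 0 := by
        unfold tN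
        have h1 : p - 2 ≠ 0 := by omega
        have h2 : p - 1 ≠ 0 := by omega
        positivity
      have h2 : A.valuation (tX k L) ^ tN p * A.valuation (1 + a) ^ p < 1 :=
        mul_lt_one_of_lt_of_le (pow_lt_one₀ zero_le hx hN0) (pow_le_one₀ zero_le h1)
      rw [← hveq] at h2
      exact lt_irrefl _ h2
    · -- big roots
      have hN : tN p = (2 * (p - 1)) * (p - 2) := by
        unfold tN
        ring
      have ha0 : a ≠ 0 := by
        rintro rfl
        rw [map_zero] at h
        exact absurd h (not_lt.2 zero_le)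
      obtain ⟨y, hy⟩ : ∃ y : L, y = tX k L ^ (2 * (p - 1)) := ⟨_, rfl⟩
      have hy0 : y ≠ 0 := by rw [hy]; exact pow_ne_zero _ hX0
      have hyA : y ∈ A := by rw [hy]; exact pow_mem hX _
      have hσy : σ y = y := by rw [hy]; exact hσX _
      obtain ⟨κ, hκ⟩ : ∃ κ : L, κ = a⁻¹ / y := ⟨_, rfl⟩
      have haκ : a⁻¹ = y * κ := by
        rw [hκ]
        field_simp
      have hW : a⁻¹ ^ (p - 2) = y ^ (p - 2) * (1 + a⁻¹) ^ p := by
        have h1 : (1 + a⁻¹) = a⁻¹ * (1 + a) := by
          field_simp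
          ring
        have h2 : a⁻¹ ^ p = a⁻¹ ^ (p - 2) * a⁻¹ ^ 2 := by
          rw [← pow_add]
          congr 1
          omega
        rw [h1, mul_pow, h2, hy, ← pow_mul, ← hN]
        have h3 : tX k L ^ tN p * (a⁻¹ ^ (p - 2) * a⁻¹ ^ 2 * (1 + a) ^ p) =
            a⁻¹ ^ (p - 2) * a⁻¹ ^ 2 * (tX k L ^ tN p * (1 + a) ^ p) := by ring
        rw [h3, ← heq, mul_assoc, ← mul_pow, inv_mul_cancel₀ ha0, one_pow, mul_one]
      have h1 : 1 * κ ^ (p - 2) = (1 + y * κ) ^ p := by
        rw [← haκ, hκ, div_pow, hW]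
        field_simp
      have hinvlt : A.valuation a⁻¹ < 1 := by
        rw [map_inv₀]
        exact inv_lt_one_of_one_lt₀ h
      have h2 : A.valuation κ = 1 := by
        apply hone (n := p - 2) (by omega)
        rw [one_mul, ← haκ] at h1
        rw [h1, map_pow, A.valuation.map_add_eq_of_lt_left (by rw [map_one]; exact hinvlt),
          map_one, one_pow]
      have h3 := tri_fin_key (p := p) hF A hA σ hσ κ y 1 (p - 2) (by omega)
        (hcast (p - 2) (by omega) (by omega)) h2 hyA (map_one _) hσy (map_one _) h1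
      have h4 : σ a⁻¹ = a⁻¹ := by
        rw [haκ, map_mul, hσy, h3]
      rw [map_inv₀] at h4
      exact inv_injective h4
  · -- the places with `x` a unit
    rw [hx, one_pow, one_mul] at hveq
    have h1 : A.valuation a = 1 := by
      rcases lt_trichotomy (A.valuation a) 1 with h | h | h
      · exfalso
        rw [hvlt h, one_pow] at hveq
        have h2 := pow_lt_one₀ zero_le h two_ne_zero
        rw [hveq] at h2
        exact lt_irrefl _ h2
      · exact h
      · exfalso
        rw [hvgt h] at hveq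
        have h2 : A.valuation a ^ 2 < A.valuation a ^ p := pow_lt_pow_right₀ h (by omega)
        rw [hveq] at h2
        exact lt_irrefl _ h2
    have hN0 : tX k L ^ tN p ≠ 0 := pow_ne_zero _ hX0
    refine tri_fin_key (p := p) hF A hA σ hσ a 1 (tX k L ^ tN p)⁻¹ 2 two_pos
      (hcast 2 two_pos (by omega)) h1 A.one_mem ?_ (map_one _) ?_ ?_
    · rw [map_inv₀, map_pow, hx, one_pow, inv_one]
    · rw [map_inv₀, hσX]
    · rw [heq, one_mul, ← mul_assoc, inv_mul_cancel₀ hN0, one_mul]

end Pool.Agent.Helper54.TJ
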