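import Mathlib

/-!
# TRI-08: the group

`N = tN p = 2 (p-2) (p-1)`, `TR p x y : y ^ 2 = x ^ N * (1 + y) ^ p` (characteristic `p`, so `(1+y)^p = 1 + y^p`).
For the valuation facts see Helper18/PW/Places1.lean (ff_of_algebraic, exists_place_extension, val_const), `residue`
(every `a` in `A` is congruent to a constant), `stab_sub_mem_nonunits` of Helper54/PW/Main2.lean (`σ a - a` is a nonunit for
`a ∈ A`, `σ` stabilizing `A`), and the use of the SL modules in Helper54/SL/Main.lean.  `|.| = A.valuation`, `x = tX k L`.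

PROOF.
`p` divides `|H|` (transitive), so `H` contains an element `t` of order `p`, a `p`-cycle with full support; the closure of `{t, s}`
is `⊤` (`Equiv.Perm.closure_prime_cycle_swap`), `H` is normalized by `t` and `s`, so `H` is normal in `Perm (Fin p)`.
`s = swap a b`; replace `t` by a power with `t a = b`; `t s t⁻¹ s⁻¹ = (t (s t⁻¹ s⁻¹)) ∈ H` is a 3-cycle (`p ≥ 5`: it is
`swap b (t b) * swap a b` with `t b ≠ a, b`).  `H` is normal and all 3-cycles are conjugate, so `H` contains all 3-cycles
(`closure_three_cycles_eq_alternating`).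
-/

set_option autoImplicit false
set_option linter.unusedVariables false
set_option linter.unusedSectionVars false
open scoped Pointwise

namespace Pool.Agent.Helper54.TJ

variable {p : ℕ} [Fact p.Prime]

theorem tri_group (hp5 : 5 ≤ p) (H : Subgroup (Equiv.Perm (Fin p)))
    (htrans : ∀ i j, ∃ g ∈ H, g i = j) (s : Equiv.Perm (Fin p)) (hs : s.IsSwap)
    (hnorm : ∀ g ∈ H, s * g * s⁻¹ ∈ H) : alternatingGroup (Fin p) ≤ H := by
  classical
  have hp : p.Prime := Fact.out
  have : NeZero p := ⟨by omega⟩
  have : MulAction.IsPretransitive H (Fin p) := by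
    refine ⟨fun i j => ?_⟩
    obtain ⟨g, hg, hgi⟩ := htrans i j
    exact ⟨⟨g, hg⟩, hgi⟩
  have hdvd : p ∣ Nat.card H := by
    have h1 := MulAction.index_stabilizer_of_transitive H (0 : Fin p)
    rw [Nat.card_fin] at h1
    have h2 := Subgroup.index_dvd_card (MulAction.stabilizer H (0 : Fin p))
    rwa [h1] at h2
  obtain ⟨t, ht⟩ := exists_prime_orderOf_dvd_card' p hdvd
  have ht' : orderOf (t : Equiv.Perm (Fin p)) = p := by
    rw [Subgroup.orderOf_coe, ht]
  have hcyc : (t : Equiv.Perm (Fin p)).IsCycle := by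
    apply Equiv.Perm.isCycle_of_prime_order''
    · rw [Fintype.card_fin]
      exact hp
    · rw [Fintype.card_fin]
      exact ht'
  have hsupp : (t : Equiv.Perm (Fin p)).support = Finset.univ := by
    apply Finset.eq_univ_of_card
    rw [← hcyc.orderOf, ht', Fintype.card_fin]
  have hcl := Equiv.Perm.closure_prime_cycle_swap (by rw [Fintype.card_fin]; exact hp) hcyc hsupp hs
  have hs2 : s⁻¹ = s := by
    obtain ⟨a, b, -, rfl⟩ := hs
    exact Equiv.swap_inv a b
  have hN : H.Normal := by
    rw [← Subgroup.normalizer_eq_top_iff, eq_top_iff, ← hcl, Subgroup.closure_le]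
    rintro g (rfl | hg)
    · exact Subgroup.le_normalizer t.2
    · rw [Set.mem_singleton_iff] at hg
      subst hg
      refine Subgroup.mem_normalizer_iff.2 fun h => ⟨hnorm h, fun h2 => ?_⟩
      have h3 := hnorm _ h2
      rw [hs2] at h3
      have h4 : g * g = 1 := by
        nth_rewrite 1 [← hs2]
        exact inv_mul_cancel g
      have h5 : g * (g * h * g) * g = h := by
        rw [mul_assoc g h g, ← mul_assoc g g (h * g), h4, one_mul, mul_assoc, h4, mul_one]
      rwa [h5] at h3
  refine Equiv.Perm.alternatingGroup_le_of_normal (by rw [Nat.card_fin]; exact hp5) ?_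
  rw [Subgroup.nontrivial_iff_exists_ne_one]
  refine ⟨t, t.2, fun h => ?_⟩
  rw [h, orderOf_one] at ht'
  omega

end Pool.Agent.Helper54.TJ
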