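import Pool.Agent.Helper54.TJ.Defs
import Pool.Agent.Helper54.PW.Final
import Pool.Agent.Helper54.SL.Main

/-!
# TRI-05: the place at infinity, stabilizers

`N = tN p = 2 (p-2) (p-1)`, `TR p x y : y ^ 2 = x ^ N * (1 + y) ^ p` (characteristic `p`, so `(1+y)^p = 1 + y^p`).
For the valuation facts see Helper18/PW/Places1.lean (ff_of_algebraic, exists_place_extension, val_const), `residue`
(every `a` in `A` is congruent to a constant), `stab_sub_mem_nonunits` of Helper54/PW/Main2.lean (`σ a - a` is a nonunit for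
`a ∈ A`, `σ` stabilizing `A`), and the use of the SL modules in Helper54/SL/Main.lean.  `|.| = A.valuation`, `x = tX k L`.

PROOF.
`η_i = 1 + r_i`: `(η_i - 1)^2 = x^N η_i^p` and `|x| > 1` give `|η_i| < 1`.  `x^N (r_i - r_j)^(p-1) = r_i + r_j = η_i + η_j - 2`
(difference equation, see TRI-04), a unit.  So `κ_i = (r_i - r_i0) x^(2(p-2))`, `i ≠ i0`, are units of `A` (`κ_i^(p-1) =
x^N (r_i - r_i0)^(p-1)`, `N = 2(p-2)(p-1)`), and `κ_i - κ_j = (r_i - r_j) x^(2(p-2))` are units too: the residues of the `κ_i` are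
distinct.  `σ` fixes `r_i0` and `x`, permutes the `κ_i` and fixes their residues: `σ r_i = r_i`.
-/

set_option autoImplicit false
set_option linter.unusedVariables false
set_option linter.unusedSectionVars false
open scoped Pointwise

namespace Pool.Agent.Helper54.TJ

open Pool.Agent.Helper54.PW Pool.Agent.Helper54.SL Pool.Agent.Helper54.FP

variable {p : ℕ} [Fact p.Prime] {k : Type} [Field k] [IsAlgClosed k] [CharP k p]
variable {L : Type} [Field L] [Algebra (RatFunc k) L] [FiniteDimensional (RatFunc k) L]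
  [IsGalois (RatFunc k) L] (r : Fin p → L) (hinj : Function.Injective r)
  (hroot : ∀ i, TR p (tX k L) (r i)) (hall : ∀ y : L, TR p (tX k L) y → ∃ i, y = r i)
  (hgen : IntermediateField.adjoin (RatFunc k) (Set.range r) = ⊤) (hprod : ∏ i, r i = -1)
  (hder : ∀ i, -2 * r i = tX k L ^ tN p * ∏ j ∈ Finset.univ.erase i, (r i - r j))

/-- a solution of the trinomial equation is close to `-1` where `x` is big -/
private lemma h43_small {F : Type} [Field F] (A : ValuationSubring F) {q N : ℕ} (hq : 2 ≤ q)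
    (hN : N ≠ 0) {x y : F} (hx : 1 < A.valuation x) (h : y ^ 2 = x ^ N * (1 + y) ^ q) :
    A.valuation (1 + y) < 1 := by
  by_contra hcon
  rw [not_lt] at hcon
  set v := A.valuation with hv
  have h1 : v y ≤ v (1 + y) := by
    have h2 : v y = v ((1 + y) - 1) := by
      congr 1
      ring
    rw [h2]
    refine (v.map_sub _ _).trans ?_
    rw [map_one]
    exact max_le le_rfl hcon
  have h3 : v y ^ 2 = v x ^ N * v (1 + y) ^ q := by
    rw [← map_pow, h, map_mul, map_pow, map_pow]
  have h4 : v (1 + y) ^ 2 ≤ v (1 + y) ^ q := pow_le_pow_right₀ hcon hq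
  have h5 : 1 < v x ^ N := one_lt_pow₀ hx hN
  have h6 : 0 < v (1 + y) ^ 2 := pow_pos (lt_of_lt_of_le zero_lt_one hcon) 2
  have h7 : v (1 + y) ^ 2 < v x ^ N * v (1 + y) ^ 2 := lt_mul_of_one_lt_left h6 h5
  have h8 : v x ^ N * v (1 + y) ^ 2 ≤ v x ^ N * v (1 + y) ^ q := mul_le_mul_right h4 _
  have h9 : v y ^ 2 ≤ v (1 + y) ^ 2 := pow_le_pow_left₀ zero_le h1 2
  rw [h3] at h9
  exact absurd (h7.trans_le h8) (not_lt.2 h9)

/-- the difference equation -/
private lemma h43_diff {q : ℕ} [Fact q.Prime] {F : Type} [Field F] [CharP F q] {N : ℕ} {x a b : F}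
    (ha : a ^ 2 = x ^ N * (1 + a) ^ q) (hb : b ^ 2 = x ^ N * (1 + b) ^ q) (hab : a ≠ b) :
    x ^ N * (a - b) ^ (q - 1) = a + b := by
  have h0 : a - b ≠ 0 := sub_ne_zero.2 hab
  have h1 : (a - b) ^ q = (1 + a) ^ q - (1 + b) ^ q := by
    rw [← sub_pow_char]
    congr 1
    ring
  have h2 : (a - b) ^ q = (a - b) ^ (q - 1) * (a - b) := by
    rw [← pow_succ, Nat.sub_add_cancel (Fact.out : q.Prime).one_le]
  apply mul_right_cancel₀ h0
  calc x ^ N * (a - b) ^ (q - 1) * (a - b) = x ^ N * (a - b) ^ q := by rw [h2]; ring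
    _ = x ^ N * (1 + a) ^ q - x ^ N * (1 + b) ^ q := by rw [h1]; ring
    _ = (a + b) * (a - b) := by rw [← ha, ← hb]; ring

include hinj hroot in
theorem tri_inf_stab (hp5 : 5 ≤ p) [Algebra k L] [IsScalarTower k (RatFunc k) L] (hF : FF k L)
    (A : ValuationSubring L) (hA : IsPlace k A) (hX : tX k L ∉ A) (σ : L ≃ₐ[RatFunc k] L)
    (hσ : σ • A = A) (hσr : ∀ i, ∃ j, σ (r i) = r j) (i0 : Fin p) (h0 : σ (r i0) = r i0)
    (i : Fin p) : σ (r i) = r i := by
  have hchar : CharP L p := charP_of_injective_algebraMap (algebraMap k L).injective p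
  set x : L := tX k L with hxd
  have hN0 : tN p ≠ 0 := by
    unfold tN
    have h1 : 0 < p - 2 := by omega
    have h2 : 0 < p - 1 := by omega
    positivity
  have hx1 : 1 < A.valuation x := by
    rw [← not_le, A.valuation_le_one_iff]
    exact hX
  have hη : ∀ j, A.valuation (1 + r j) < 1 := fun j =>
    h43_small A (by omega) hN0 hx1 (hroot j)
  have h2 : A.valuation (-2 : L) = 1 := by
    have h3 : (-2 : L) = algebraMap k L (-2) := by
      rw [map_neg]
      congr 1
      exact (map_ofNat (algebraMap k L) 2).symm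
    rw [h3]
    apply Places1.val_const A hA.2
    intro h4
    have h5 : ((2 : ℕ) : k) = 0 := by
      push_cast
      linear_combination -h4
    rw [CharP.cast_eq_zero_iff k p] at h5
    have := Nat.le_of_dvd (by norm_num) h5
    omega
  have hsum : ∀ a b, A.valuation (r a + r b) = 1 := by
    intro a b
    have h3 : r a + r b = -2 + ((1 + r a) + (1 + r b)) := by ring
    rw [h3, A.valuation.map_add_eq_of_lt_left, h2]
    rw [h2]
    exact (A.valuation.map_add _ _).trans_lt (max_lt (hη a) (hη b))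
  have hunit : ∀ a b, a ≠ b → A.valuation ((r a - r b) * x ^ (2 * (p - 2))) = 1 := by
    intro a b hab
    have h3 : ((r a - r b) * x ^ (2 * (p - 2))) ^ (p - 1) = r a + r b := by
      rw [← h43_diff (hroot a) (hroot b) (hinj.ne hab), mul_pow, ← pow_mul]
      unfold tN
      ring
    have h4 : A.valuation ((r a - r b) * x ^ (2 * (p - 2))) ^ (p - 1) = 1 := by
      rw [← map_pow, h3, hsum]
    exact (pow_eq_one_iff.1 h4).resolve_right (by omega)
  by_cases hi : i = i0
  · rw [hi, h0]
  obtain ⟨j, hj⟩ := hσr i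
  have hj0 : j ≠ i0 := by
    rintro rfl
    apply hi
    apply hinj
    apply σ.injective
    rw [hj, h0]
  rw [hj]
  by_contra hne
  have hji : j ≠ i := fun h => hne (by rw [h])
  have hmem : (r i - r i0) * x ^ (2 * (p - 2)) ∈ A := by
    rw [← A.valuation_le_one_iff, hunit i i0 hi]
  have hst := stab_sub_mem_nonunits hF A hA σ hσ _ hmem
  have hσx : σ x = x := σ.commutes _
  rw [map_mul, map_sub, map_pow, hj, h0, hσx, ← sub_mul, sub_sub_sub_cancel_right,
    ValuationSubring.mem_nonunits_iff, hunit j i hji] at hst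
  exact lt_irrefl _ hst

end Pool.Agent.Helper54.TJ
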