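import Pool.Agent.Helper54.TJ.Defs
import Pool.Agent.Helper54.PW.Final
import Pool.Agent.Helper54.SL.Main

/-!
# TRI-06: the place at infinity, transitivity

`N = tN p = 2 (p-2) (p-1)`, `TR p x y : y ^ 2 = x ^ N * (1 + y) ^ p` (characteristic `p`, so `(1+y)^p = 1 + y^p`).
For the valuation facts see Helper18/PW/Places1.lean (ff_of_algebraic, exists_place_extension, val_const), `residue`
(every `a` in `A` is congruent to a constant), `stab_sub_mem_nonunits` of Helper54/PW/Main2.lean (`σ a - a` is a nonunit for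
`a ∈ A`, `σ` stabilizing `A`), and the use of the SL modules in Helper54/SL/Main.lean.  `|.| = A.valuation`, `x = tX k L`.

PROOF.
`O` = orbit of `i` under `D = {σ : σ A = A}`; `f = ∏_{j ∈ O} (1 + r_j)` is fixed by `D`; `immediate` (SL modules, Helper16/SL/Immediate)
gives `g` in `RatFunc k` with `|f| = |g|`, and `|g| = |x|^n`, `n` an integer (place of `k(X)` at infinity: `|g| = |x|^(degree)`).
`|1+r_j|^p = |x|^(-N)` (as `|r_j| = 1`), so `|x|^(p n) = |x|^(-N |O|)`, `p n = -N |O|`, `p ∣ |O|` (`p` does not divide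
`N = 2(p-2)(p-1)`), so `O` is everything.
-/

set_option autoImplicit false
set_option linter.unusedVariables false
set_option linter.unusedSectionVars false
open scoped Pointwise

namespace Pool.Agent.Helper54.TJ

open Pool.Agent.Helper54.PW Pool.Agent.Helper54.SL Pool.Agent.Helper54.FP

variable {p : ℕ} [Fact p.Prime] {k : Type} [Field k] [IsAlgClosed k] [CharP k p]
variable {L : Type} [Field L] [Algebra (RatFunc k) L] [FiniteDimensional (RatFunc k) L]
  [IsGalois (RatFunc k) L] (r : Fin p → L) (hinj : Function.Injective r)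
  (hroot : ∀ i, TR p (tX k L) (r i)) (hall : ∀ y : L, TR p (tX k L) y → ∃ i, y = r i)
  (hgen : IntermediateField.adjoin (RatFunc k) (Set.range r) = ⊤) (hprod : ∏ i, r i = -1)
  (hder : ∀ i, -2 * r i = tX k L ^ tN p * ∏ j ∈ Finset.univ.erase i, (r i - r j))

include hinj hroot hall in
theorem tri_inf_trans (hp5 : 5 ≤ p) [Algebra k L] [IsScalarTower k (RatFunc k) L] (hF : FF k L)
    (A : ValuationSubring L) (hA : IsPlace k A) (hX : tX k L ∉ A) (i j : Fin p) :
    ∃ σ : L ≃ₐ[RatFunc k] L, σ • A = A ∧ σ (r i) = r j := by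
  classical
  have hp : p.Prime := Fact.out
  have hvX : 1 < A.valuation (tX k L) := by
    rw [← not_le, A.valuation_le_one_iff]
    exact hX
  have hX0 : A.valuation (tX k L) ≠ 0 := (lt_trans zero_lt_one hvX).ne'
  have hN0 : tN p ≠ 0 := by
    unfold tN
    have h1 : p - 2 ≠ 0 := by omega
    have h2 : p - 1 ≠ 0 := by omega
    positivity
  -- the valuation of `1 + r`
  have hval : ∀ l : Fin p, A.valuation (1 + r l) ^ p = A.valuation (tX k L) ^ (-(tN p : ℤ)) := by
    intro l
    have h1 : r l ^ 2 = tX k L ^ tN p * (1 + r l) ^ p := hroot l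
    have h2 := congrArg A.valuation h1
    rw [map_pow, map_mul, map_pow, map_pow] at h2
    have hXN : 1 < A.valuation (tX k L) ^ tN p := one_lt_pow₀ hvX hN0
    have h3 : A.valuation (r l) = 1 := by
      rcases lt_trichotomy (A.valuation (r l)) 1 with h | h | h
      · exfalso
        have h4 : A.valuation (1 + r l) = 1 := by
          rw [A.valuation.map_add_eq_of_lt_left (by rw [map_one]; exact h), map_one]
        rw [h4, one_pow, mul_one] at h2
        have h5 : A.valuation (r l) ^ 2 < 1 := pow_lt_one₀ zero_le h two_ne_zero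
        rw [h2] at h5
        exact absurd hXN (not_lt.2 h5.le)
      · exact h
      · exfalso
        have h4 : A.valuation (1 + r l) = A.valuation (r l) := by
          rw [A.valuation.map_add_eq_of_lt_right (by rw [map_one]; exact h)]
        rw [h4] at h2
        have h5 : A.valuation (r l) ^ 2 < A.valuation (r l) ^ p :=
          pow_lt_pow_right₀ h (by omega)
        have h6 : A.valuation (r l) ^ p ≤ A.valuation (tX k L) ^ tN p * A.valuation (r l) ^ p :=
          le_mul_of_one_le_left' hXN.le
        rw [← h2] at h6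
        exact absurd h5 (not_lt.2 h6)
    rw [h3, one_pow] at h2
    rw [zpow_neg, zpow_natCast]
    exact eq_inv_of_mul_eq_one_right h2.symm
  have hne : ∀ l : Fin p, 1 + r l ≠ 0 := by
    intro l h
    have h1 := hval l
    rw [h, map_zero, zero_pow hp.ne_zero] at h1
    exact (zpow_ne_zero _ hX0) h1.symm
  -- images of roots
  have hex : ∀ (σ : L ≃ₐ[RatFunc k] L) (l : Fin p), ∃ m : Fin p, σ (r l) = r m := by
    intro σ l
    apply hall
    have h1 : r l ^ 2 = tX k L ^ tN p * (1 + r l) ^ p := hroot l
    have h2 := congrArg σ h1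
    have h3 : σ (tX k L) = tX k L := σ.commutes _
    rw [map_pow, map_mul, map_pow, map_pow, map_add, map_one, h3] at h2
    exact h2
  choose g hg using hex
  have hginj : ∀ σ, Function.Injective (g σ) := by
    intro σ a b h
    apply hinj
    apply σ.injective
    rw [hg, hg, h]
  let O : Finset (Fin p) := Finset.univ.filter fun l =>
    ∃ σ : L ≃ₐ[RatFunc k] L, σ • A = A ∧ σ (r i) = r l
  have hO : ∀ l, l ∈ O ↔ ∃ σ : L ≃ₐ[RatFunc k] L, σ • A = A ∧ σ (r i) = r l := by
    intro l
    simp [O]
  obtain ⟨f, hf⟩ : ∃ f : L, f = ∏ l ∈ O, (1 + r l) := ⟨_, rfl⟩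
  have hf0 : f ≠ 0 := by
    rw [hf]
    exact Finset.prod_ne_zero_iff.2 fun l _ => hne l
  have hfix : ∀ σ : L ≃ₐ[RatFunc k] L, σ • A = A → σ f = f := by
    intro σ hσ
    have himg : O.image (g σ) = O := by
      apply Finset.eq_of_subset_of_card_le
      · intro m hm
        obtain ⟨l, hl, rfl⟩ := Finset.mem_image.1 hm
        obtain ⟨τ, hτ, hτl⟩ := (hO l).1 hl
        refine (hO _).2 ⟨σ * τ, by rw [mul_smul, hτ, hσ], ?_⟩
        rw [← hg, ← hτl]
        rfl
      · rw [Finset.card_image_of_injective _ (hginj σ)]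
    have h1 : σ f = ∏ l ∈ O, (1 + r (g σ l)) := by
      rw [hf, map_prod]
      refine Finset.prod_congr rfl fun l _ => ?_
      rw [map_add, map_one, hg]
    rw [h1, hf]
    conv_rhs => rw [← himg]
    rw [Finset.prod_image fun a _ b _ h => hginj σ h]
  obtain ⟨z, hz0, hz⟩ := immediate hF A hA f hf0 hfix
  rw [val_ratFunc A hA.2 hX z hz0] at hz
  have h1 : A.valuation f ^ p = A.valuation (tX k L) ^ (-(tN p : ℤ) * (O.card : ℤ)) := by
    rw [hf, map_prod, ← Finset.prod_pow, Finset.prod_congr rfl fun l _ => hval l,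
      Finset.prod_const, zpow_mul, zpow_natCast]
  rw [hz, ← zpow_natCast, ← zpow_mul] at h1
  have h2 := zpow_right_injective₀ (lt_trans zero_lt_one hvX) (ne_of_gt hvX) h1
  have h3 : (p : ℤ) ∣ (tN p : ℤ) * (O.card : ℤ) := ⟨-z.intDegree, by linarith⟩
  have h4 : p ∣ tN p * O.card := by exact_mod_cast h3
  have h5 : p ∣ O.card := by
    rcases (Nat.Prime.dvd_mul hp).1 h4 with h | h
    · exfalso
      unfold tN at h
      rcases (Nat.Prime.dvd_mul hp).1 h with h | h
      · rcases (Nat.Prime.dvd_mul hp).1 h with h | h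
        · have := Nat.le_of_dvd (by norm_num) h
          omega
        · have := Nat.le_of_dvd (by omega) h
          omega
      · have := Nat.le_of_dvd (by omega) h
        omega
    · exact h
  have h6 : i ∈ O := (hO i).2 ⟨1, one_smul _ _, rfl⟩
  have h7 : 0 < O.card := Finset.card_pos.2 ⟨i, h6⟩
  have h8 : p ≤ O.card := Nat.le_of_dvd h7 h5
  have h9 : O = Finset.univ := by
    apply Finset.eq_univ_of_card
    rw [Fintype.card_fin]
    apply le_antisymm _ h8
    have := Finset.card_le_univ O
    rwa [Fintype.card_fin] at this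
  exact (hO j).1 (by rw [h9]; exact Finset.mem_univ j)

end Pool.Agent.Helper54.TJ
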