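import Pool.Agent.Helper54.TJ.Defs
import Pool.Agent.Helper54.PW.Final
import Pool.Agent.Helper54.SL.Main

/-!
# TRI-02: the permutation representation

`N = tN p = 2 (p-2) (p-1)`, `TR p x y : y ^ 2 = x ^ N * (1 + y) ^ p` (characteristic `p`, so `(1+y)^p = 1 + y^p`).
For the valuation facts see Helper18/PW/Places1.lean (ff_of_algebraic, exists_place_extension, val_const), `residue`
(every `a` in `A` is congruent to a constant), `stab_sub_mem_nonunits` of Helper54/PW/Main2.lean (`σ a - a` is a nonunit for
`a ∈ A`, `σ` stabilizing `A`), and the use of the SL modules in Helper54/SL/Main.lean.  `|.| = A.valuation`, `x = tX k L`.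

PROOF.
`σ` maps roots to roots (`hall`), injective because `hinj` and `σ` are; it is a homomorphism, and injective because the
roots generate `L` (`hgen`).
-/

set_option autoImplicit false
set_option linter.unusedVariables false
set_option linter.unusedSectionVars false
open scoped Pointwise

namespace Pool.Agent.Helper54.TJ

open Pool.Agent.Helper54.PW Pool.Agent.Helper54.SL Pool.Agent.Helper54.FP

variable {p : ℕ} [Fact p.Prime] {k : Type} [Field k] [IsAlgClosed k] [CharP k p]
variable {L : Type} [Field L] [Algebra (RatFunc k) L] [FiniteDimensional (RatFunc k) L]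
  [IsGalois (RatFunc k) L] (r : Fin p → L) (hinj : Function.Injective r)
  (hroot : ∀ i, TR p (tX k L) (r i)) (hall : ∀ y : L, TR p (tX k L) y → ∃ i, y = r i)
  (hgen : IntermediateField.adjoin (RatFunc k) (Set.range r) = ⊤) (hprod : ∏ i, r i = -1)
  (hder : ∀ i, -2 * r i = tX k L ^ tN p * ∏ j ∈ Finset.univ.erase i, (r i - r j))

include hinj hroot hall hgen in
theorem tri_perm (hp5 : 5 ≤ p) : ∃ ρ : (L ≃ₐ[RatFunc k] L) →* Equiv.Perm (Fin p),
    Function.Injective ρ ∧ ∀ σ i, σ (r i) = r (ρ σ i) := by
  classical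
  have hex : ∀ (σ : L ≃ₐ[RatFunc k] L) (i : Fin p), ∃ j : Fin p, σ (r i) = r j := by
    intro σ i
    apply hall
    have h1 : r i ^ 2 = tX k L ^ tN p * (1 + r i) ^ p := hroot i
    have h2 := congrArg σ h1
    have h3 : σ (tX k L) = tX k L := σ.commutes _
    rw [map_pow, map_mul, map_pow, map_pow, map_add, map_one, h3] at h2
    exact h2
  choose f hf using hex
  have hfinj : ∀ σ, Function.Injective (f σ) := by
    intro σ i j h
    apply hinj
    apply σ.injective
    rw [hf, hf, h]
  have hfone : f 1 = id := by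
    funext i
    apply hinj
    rw [← hf]
    rfl
  have hfmul : ∀ σ τ i, f (σ * τ) i = f σ (f τ i) := by
    intro σ τ i
    apply hinj
    rw [← hf, ← hf, ← hf]
    rfl
  let ρ : (L ≃ₐ[RatFunc k] L) →* Equiv.Perm (Fin p) :=
    { toFun := fun σ => Equiv.ofBijective (f σ) (Finite.injective_iff_bijective.1 (hfinj σ))
      map_one' := by
        ext i
        rw [Equiv.ofBijective_apply, hfone]
        rfl
      map_mul' := by
        intro σ τ
        ext i
        rw [Equiv.ofBijective_apply, Equiv.Perm.mul_apply, Equiv.ofBijective_apply,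
          Equiv.ofBijective_apply, hfmul] }
  have hρ : ∀ σ i, σ (r i) = r (ρ σ i) := hf
  refine ⟨ρ, ?_, hρ⟩
  rw [injective_iff_map_eq_one]
  intro σ hσ
  have hfix : ∀ i, σ (r i) = r i := by
    intro i
    rw [hρ, hσ]
    rfl
  have hle : IntermediateField.adjoin (RatFunc k) (Set.range r) ≤
      IntermediateField.fixedField (Subgroup.zpowers σ) := by
    rw [IntermediateField.adjoin_le_iff]
    rintro _ ⟨i, rfl⟩
    rintro ⟨τ, hτ⟩
    obtain ⟨m, rfl⟩ := Subgroup.mem_zpowers_iff.1 hτ
    show (σ ^ m) (r i) = r i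
    have h5 : σ ∈ MulAction.stabilizer (L ≃ₐ[RatFunc k] L) (r i) := hfix i
    exact Subgroup.zpow_mem _ h5 m
  rw [hgen] at hle
  ext z
  have h6 := hle (show z ∈ (⊤ : IntermediateField (RatFunc k) L) from trivial)
  exact h6 ⟨σ, Subgroup.mem_zpowers σ⟩

end Pool.Agent.Helper54.TJ
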