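import Pool.Agent.Helper54.TJ.Defs
import Pool.Agent.Helper54.PW.Final
import Pool.Agent.Helper54.SL.Main

/-!
# TRI-07: a semilinear automorphism which is a transposition on the roots

`N = tN p = 2 (p-2) (p-1)`, `TR p x y : y ^ 2 = x ^ N * (1 + y) ^ p` (characteristic `p`, so `(1+y)^p = 1 + y^p`).
For the valuation facts see Helper18/PW/Places1.lean (ff_of_algebraic, exists_place_extension, val_const), `residue`
(every `a` in `A` is congruent to a constant), `stab_sub_mem_nonunits` of Helper54/PW/Main2.lean (`σ a - a` is a nonunit for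
`a ∈ A`, `σ` stabilizing `A`), and the use of the SL modules in Helper54/SL/Main.lean.  `|.| = A.valuation`, `x = tX k L`.

PROOF.
All roots lie in `k((v))` (`X ↦ v`): small roots `y = v^(N/2) κ`, `κ^2 = (1 + v^(N/2) κ)^p`, by Hensel in `k[[v]]` for
`κ(0) = ±1`; big roots: `1/y = v^(2(p-1)) κ`, `κ^(p-2) = (1 + v^(2(p-1)) κ)^p`, `κ(0)^(p-2) = 1` (`p - 2` simple roots).  This
gives `2 + (p-2) = p` distinct roots, so all.  So `L` embeds into `k((v))` over `RatFunc k` (`X ↦ v`), `j : L → k((v))` (roots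
generate `L`; e.g. `IsSplittingField`/`IntermediateField.adjoin` lift or embed `L` in an algebraic closure of `k((v))`).
Let `ζ` be a primitive `2(p-1)`-th root of unity in `k`, `δ0 : v ↦ ζ⁻¹ v` (the map `sg ζ` of Helper54/FP/TDefs.lean): it maps
`X^N` to `X^N`, so roots to roots; `N/2 = (p-2)(p-1)` is an odd multiple of `p-1`, so `ζ^(N/2) = -1`: the two small roots are
exchanged; `ζ^(2(p-1)) = 1`: the big roots are fixed (a root is determined by its type and its leading coefficient).  `δ0`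
preserves `j(L) = k(v)(roots)`; `δ` = the induced automorphism of `L`; `δ` maps `RatFunc k` onto itself (`X ↦ ζ⁻¹ X`), so
`δ σ δ⁻¹` is `RatFunc k`-linear.
-/

set_option autoImplicit false
set_option linter.unusedVariables false
set_option linter.unusedSectionVars false
open scoped Pointwise

namespace Pool.Agent.Helper54.TJ

open Pool.Agent.Helper54.PW Pool.Agent.Helper54.SL Pool.Agent.Helper54.FP

section aux
open Polynomial

/-- polynomials with nonzero value at zero are units at a place where `X` vanishes -/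
private theorem val_one {k : Type} [Field k] (V : ValuationSubring (RatFunc k))
    (hV : ∀ c : k, algebraMap k (RatFunc k) c ∈ V) (hX : RatFunc.X ∈ V.nonunits) (q : k[X]) :
    algebraMap k[X] (RatFunc k) q ∈ V ∧
      (q.eval 0 ≠ 0 → V.valuation (algebraMap k[X] (RatFunc k) q) = 1) ∧
      (q.eval 0 = 0 → V.valuation (algebraMap k[X] (RatFunc k) q) < 1) := by
  have hXv : V.valuation (RatFunc.X : RatFunc k) < 1 := (V.mem_nonunits_iff).1 hX
  have hXV : (RatFunc.X : RatFunc k) ∈ V := (V.valuation_le_one_iff _).1 hXv.le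
  have hall : ∀ f : k[X], algebraMap k[X] (RatFunc k) f ∈ V := by
    intro f
    induction f using Polynomial.induction_on' with
    | add f g hf hg => rw [map_add]; exact V.add_mem _ _ hf hg
    | monomial n c =>
      rw [← Polynomial.C_mul_X_pow_eq_monomial, map_mul, map_pow, RatFunc.algebraMap_X]
      exact V.mul_mem _ _ (hV c) (pow_mem hXV n)
  have h1 : ∃ w : k[X], q = C (q.eval 0) + X * w := by
    obtain ⟨w, hw⟩ : X ∣ q - C (q.eval 0) := by
      rw [X_dvd_iff]
      simp [coeff_zero_eq_eval_zero]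
    exact ⟨w, by rw [← hw]; ring⟩
  obtain ⟨w, hw⟩ := h1
  have h2 : V.valuation (algebraMap k[X] (RatFunc k) (X * w)) < 1 := by
    rw [map_mul, map_mul, RatFunc.algebraMap_X]
    exact mul_lt_one_of_lt_of_le hXv ((V.valuation_le_one_iff _).2 (hall w))
  refine ⟨hall q, fun h0 => ?_, fun h0 => ?_⟩
  · rw [hw, map_add]
    have hc1 : V.valuation (algebraMap k[X] (RatFunc k) (C (q.eval 0))) = 1 := by
      apply le_antisymm ((V.valuation_le_one_iff _).2 (hall _))
      have h3 := (V.valuation_le_one_iff _).2 (hall (C (q.eval 0)⁻¹))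
      have h4 : algebraMap k[X] (RatFunc k) (C (q.eval 0)⁻¹) = (algebraMap k[X] (RatFunc k) (C (q.eval 0)))⁻¹ := by
        refine eq_inv_of_mul_eq_one_left ?_
        rw [← map_mul, ← C_mul, inv_mul_cancel₀ h0, C_1, map_one]
      rw [h4, map_inv₀] at h3
      have h5 : 0 < V.valuation (algebraMap k[X] (RatFunc k) (C (q.eval 0))) :=
        zero_lt_iff.2 ((_root_.map_ne_zero _).2 ((map_ne_zero_iff _ (IsFractionRing.injective k[X] (RatFunc k))).2
          (C_ne_zero.2 h0)))
      exact (inv_le_one₀ h5).1 h3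
    rw [V.valuation.map_add_eq_of_lt_left (by rw [hc1]; exact h2), hc1]
  · rw [hw, h0, C_0, zero_add]
    exact h2

private theorem zero_place_le {k : Type} [Field k] (V V' : ValuationSubring (RatFunc k))
    (hV : ∀ c : k, algebraMap k (RatFunc k) c ∈ V) (hX : RatFunc.X ∈ V.nonunits)
    (hV' : ∀ c : k, algebraMap k (RatFunc k) c ∈ V') (hX' : RatFunc.X ∈ V'.nonunits) : V ≤ V' := by
  intro f hf
  have hnd := RatFunc.num_div_denom f
  have hd0 : algebraMap k[X] (RatFunc k) f.denom ≠ 0 :=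
    (map_ne_zero_iff _ (IsFractionRing.injective k[X] (RatFunc k))).2 f.denom_ne_zero
  by_cases h : f.denom.eval 0 = 0
  · exfalso
    have hn : f.num.eval 0 ≠ 0 := by
      intro hn
      obtain ⟨a, b, hab⟩ := RatFunc.isCoprime_num_denom f
      have := congrArg (Polynomial.eval 0) hab
      simp [h, hn] at this
    have h1 := (val_one V hV hX f.num).2.1 hn
    have h2 := (val_one V hV hX f.denom).2.2 h
    have h3 := (V.valuation_le_one_iff _).2 hf
    rw [← hnd, map_div₀, h1] at h3
    have h4 : 0 < V.valuation (algebraMap k[X] (RatFunc k) f.denom) :=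
      zero_lt_iff.2 ((_root_.map_ne_zero _).2 hd0)
    rw [one_div] at h3
    exact absurd h3 (not_le.2 ((one_lt_inv₀ h4).2 h2))
  · have h1 := (V'.valuation_le_one_iff _).2 (val_one V' hV' hX' f.num).1
    have h2 := (val_one V' hV' hX' f.denom).2.1 h
    rw [← V'.valuation_le_one_iff, ← hnd, map_div₀, h2, div_one]
    exact h1

/-- the place of `k(X)` at zero -/
private theorem exists_zero_place (k : Type) [Field k] : ∃ V : ValuationSubring (RatFunc k),
    (∀ c : k, algebraMap k (RatFunc k) c ∈ V) ∧ RatFunc.X ∈ V.nonunits ∧ V ≠ ⊤ := by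
  let v := (Polynomial.idealX k).valuation (RatFunc k)
  have hXv : v RatFunc.X < 1 := by
    have h := Polynomial.valuation_X_eq_neg_one k
    change v RatFunc.X < 1
    rw [h]
    rw [← WithZero.exp_zero]
    exact WithZero.exp_lt_exp.2 (by norm_num)
  have hX0 : (RatFunc.X : RatFunc k) ≠ 0 := RatFunc.X_ne_zero
  have hinv : (RatFunc.X : RatFunc k)⁻¹ ∉ v.valuationSubring := by
    intro h
    have h1 : v (RatFunc.X : RatFunc k)⁻¹ ≤ 1 := h
    rw [map_inv₀] at h1
    have h4 : 0 < v (RatFunc.X : RatFunc k) := zero_lt_iff.2 ((_root_.map_ne_zero _).2 hX0)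
    exact absurd h1 (not_le.2 ((one_lt_inv₀ h4).2 hXv))
  refine ⟨v.valuationSubring, fun c => ?_, ?_, fun h => hinv (by rw [h]; trivial)⟩
  · show v (algebraMap k (RatFunc k) c) ≤ 1
    exact (Polynomial.idealX k).valuation_le_one (K := RatFunc k) (C c)
  · rw [ValuationSubring.mem_nonunits_iff_or]
    exact Or.inr hinv


/-- the automorphism `X ↦ c X` -/
private theorem exists_delta0 {k : Type} [Field k] (c : k) (hc : c ≠ 0) :
    ∃ δ0 : RatFunc k ≃+* RatFunc k, (∀ a : k, δ0 (algebraMap k (RatFunc k) a) = algebraMap k (RatFunc k) a) ∧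
      δ0 RatFunc.X = algebraMap k (RatFunc k) c * RatFunc.X := by
  let _ : Invertible c := invertibleOfNonzero hc
  let h : k[X] ≃+* k[X] := (Polynomial.algEquivCMulXAddC c 0).toRingEquiv
  have hh : ∀ q, h q = Polynomial.aeval (C c * X + C 0) q := fun q => by
    exact Polynomial.algEquivCMulXAddC_apply c 0 q
  let δ0 : RatFunc k ≃+* RatFunc k := IsFractionRing.ringEquivOfRingEquiv h
  have hδ : ∀ q : k[X], δ0 (algebraMap k[X] (RatFunc k) q) = algebraMap k[X] (RatFunc k) (h q) := fun q =>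
    IsFractionRing.ringEquivOfRingEquiv_algebraMap (K := RatFunc k) (L := RatFunc k) h q
  refine ⟨δ0, fun a => ?_, ?_⟩
  · have e : algebraMap k (RatFunc k) a = algebraMap k[X] (RatFunc k) (C a) := rfl
    rw [e, hδ, hh, aeval_C]
    rfl
  · have e := RatFunc.algebraMap_X (K := k)
    rw [← e, hδ, hh, aeval_X, C_0, add_zero, map_mul]
    rfl

/-- extension of a homomorphism to the splitting field -/
private theorem exists_hom {F L K' : Type} [Field F] [Field L] [Algebra F L] [FiniteDimensional F L] [Field K']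
    (ψ : F →+* K') (P : F[X]) (hP0 : P ≠ 0) (hPs : (P.map ψ).Splits) (S : Set L) (hS : ∀ s ∈ S, aeval s P = 0)
    (hgen : IntermediateField.adjoin F S = ⊤) : ∃ φ : L →+* K', ∀ a, φ (algebraMap F L a) = ψ a := by
  let alg : Algebra F K' := ψ.toAlgebra
  have key : Nonempty (L →ₐ[F] K') := by
    refine IntermediateField.nonempty_algHom_of_adjoin_splits (S := S) ?_ hgen
    intro s hs
    have hint : IsIntegral F s := Algebra.IsIntegral.isIntegral s
    refine ⟨hint, ?_⟩
    have hd : minpoly F s ∣ P := minpoly.dvd F s (hS s hs)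
    exact Polynomial.Splits.of_dvd (g := P.map (algebraMap F K')) hPs
      ((Polynomial.map_ne_zero_iff (algebraMap F K').injective).2 hP0) (Polynomial.map_dvd _ hd)
  obtain ⟨φ⟩ := key
  exact ⟨φ.toRingHom, fun a => φ.commutes a⟩

/-- extension of `δ0` to the splitting field of a polynomial fixed by `δ0` -/
private theorem exists_delta {F L : Type} [Field F] [Field L] [Algebra F L] [FiniteDimensional F L]
    (δ0 : F ≃+* F) (P : F[X]) (hP0 : P ≠ 0) (hPδ : P.map (δ0 : F →+* F) = P)
    (hPs : (P.map (algebraMap F L)).Splits) (S : Set L) (hS : ∀ s ∈ S, aeval s P = 0)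
    (hgen : IntermediateField.adjoin F S = ⊤) :
    ∃ δ : L ≃+* L, ∀ a : F, δ (algebraMap F L a) = algebraMap F L (δ0 a) := by
  classical
  obtain ⟨φ, hφ⟩ : ∃ φ : L →+* L, ∀ a : F, φ (algebraMap F L a) = algebraMap F L (δ0 a) := by
    obtain ⟨φ, hφ⟩ := exists_hom ((algebraMap F L).comp (δ0 : F →+* F)) P hP0 (by
      rw [← Polynomial.map_map, hPδ]; exact hPs) S hS hgen
    exact ⟨φ, fun a => by rw [hφ]; rfl⟩
  have hsurj : Function.Surjective φ := by
    have hroots : ∀ s, aeval s P = 0 → aeval (φ s) P = 0 := by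
      intro s hs
      have h1 : φ (aeval s P) = 0 := by rw [hs, map_zero]
      rw [aeval_def, hom_eval₂] at h1
      have h2 : φ.comp (algebraMap F L) = (algebraMap F L).comp (δ0 : F →+* F) := by
        ext a; exact hφ a
      rw [h2, ← eval₂_map, hPδ] at h1
      exact h1
    have hPL : P.map (algebraMap F L) ≠ 0 := (Polynomial.map_ne_zero_iff (algebraMap F L).injective).2 hP0
    have hfin : {s : L | aeval s P = 0}.Finite := by
      refine (P.map (algebraMap F L)).roots.toFinset.finite_toSet.subset ?_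
      intro s hs
      have hs' : aeval s P = 0 := hs
      rw [Finset.mem_coe, Multiset.mem_toFinset, mem_roots hPL, IsRoot, eval_map_algebraMap]
      exact hs'
    have _ : Finite {s : L | aeval s P = 0} := hfin
    let g : {s : L | aeval s P = 0} → {s : L | aeval s P = 0} := fun s => ⟨φ s.1, hroots s.1 s.2⟩
    have hg : Function.Injective g := fun a b h => Subtype.ext (φ.injective (congrArg Subtype.val h))
    have hg2 : Function.Surjective g := Finite.surjective_of_injective hg
    let R : IntermediateField F L :=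
      { φ.fieldRange with
        algebraMap_mem' := fun a => ⟨algebraMap F L (δ0.symm a), by rw [hφ, RingEquiv.apply_symm_apply]⟩ }
    have hR : IntermediateField.adjoin F S ≤ R := by
      rw [IntermediateField.adjoin_le_iff]
      intro s hs
      obtain ⟨y, hy⟩ := hg2 ⟨s, hS s hs⟩
      exact ⟨y.1, congrArg Subtype.val hy⟩
    intro y
    have hy : y ∈ R := hR (by rw [hgen]; trivial)
    exact hy
  exact ⟨RingEquiv.ofBijective φ ⟨φ.injective, hsurj⟩, fun a => by rw [← hφ a]; rfl⟩


section core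

variable {k K : Type} [Field k] [Field K] [Algebra k K] (A : ValuationSubring K)

/-- `y` has residue `a` -/
private def Cg (y : K) (a : k) : Prop := A.valuation (y - algebraMap k K a) < 1

variable {A}

private theorem Cg.val_le (hk : ∀ c : k, algebraMap k K c ∈ A) {y : K} {a : k} (h : Cg A y a) :
    A.valuation y ≤ 1 := by
  have h1 := (A.valuation_le_one_iff _).2 (hk a)
  have e : y = (y - algebraMap k K a) + algebraMap k K a := by ring
  rw [e]
  exact (A.valuation.map_add _ _).trans (max_le h.le h1)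

private theorem Cg.add {y z : K} {a b : k} (h : Cg A y a) (h' : Cg A z b) : Cg A (y + z) (a + b) := by
  unfold Cg at *
  have e : y + z - algebraMap k K (a + b) = (y - algebraMap k K a) + (z - algebraMap k K b) := by
    rw [map_add]; ring
  rw [e]
  exact A.valuation.map_add_lt h h'

private theorem Cg.mul (hk : ∀ c : k, algebraMap k K c ∈ A) {y z : K} {a b : k} (h : Cg A y a)
    (h' : Cg A z b) : Cg A (y * z) (a * b) := by
  have hz := h'.val_le hk
  have ha := (A.valuation_le_one_iff _).2 (hk a)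
  unfold Cg at *
  have e : y * z - algebraMap k K (a * b) =
      (y - algebraMap k K a) * z + algebraMap k K a * (z - algebraMap k K b) := by
    rw [map_mul]; ring
  rw [e]
  refine A.valuation.map_add_lt ?_ ?_
  · rw [map_mul]; exact mul_lt_one_of_lt_of_le h hz
  · rw [map_mul, mul_comm]; exact mul_lt_one_of_lt_of_le h' ha

private theorem Cg.one : Cg A (1 : K) (1 : k) := by
  unfold Cg; rw [map_one, sub_self, map_zero]; exact zero_lt_one

private theorem Cg.zero : Cg A (0 : K) (0 : k) := by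
  unfold Cg; rw [map_zero, sub_self, map_zero]; exact zero_lt_one

private theorem Cg.pow (hk : ∀ c : k, algebraMap k K c ∈ A) {y : K} {a : k} (h : Cg A y a) (n : ℕ) :
    Cg A (y ^ n) (a ^ n) := by
  induction n with
  | zero => rw [pow_zero, pow_zero]; exact Cg.one
  | succ n ih => rw [pow_succ, pow_succ]; exact ih.mul hk h

private theorem Cg.sum {ι : Type} (s : Finset ι) (f : ι → K) (g : ι → k) (h : ∀ i ∈ s, Cg A (f i) (g i)) :
    Cg A (∑ i ∈ s, f i) (∑ i ∈ s, g i) := by
  classical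
  induction s using Finset.induction_on with
  | empty => rw [Finset.sum_empty, Finset.sum_empty]; exact Cg.zero
  | insert a s ha ih =>
    rw [Finset.sum_insert ha, Finset.sum_insert ha]
    exact (h a (Finset.mem_insert_self _ _)).add (ih fun i hi => h i (Finset.mem_insert_of_mem hi))

private theorem val_const' (hk : ∀ c : k, algebraMap k K c ∈ A) {c : k} (hc : c ≠ 0) :
    A.valuation (algebraMap k K c) = 1 := by
  apply le_antisymm ((A.valuation_le_one_iff _).2 (hk c))
  have h1 := (A.valuation_le_one_iff _).2 (hk c⁻¹)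
  rw [map_inv₀, map_inv₀] at h1
  have h2 : 0 < A.valuation (algebraMap k K c) :=
    zero_lt_iff.2 ((_root_.map_ne_zero _).2 ((_root_.map_ne_zero _).2 hc))
  exact (inv_le_one₀ h2).1 h1

private theorem Cg.unique (hk : ∀ c : k, algebraMap k K c ∈ A) {y : K} {a b : k} (h : Cg A y a)
    (h' : Cg A y b) : a = b := by
  by_contra hab
  have h1 := val_const' hk (sub_ne_zero.2 hab)
  have e : algebraMap k K (a - b) = (y - algebraMap k K b) - (y - algebraMap k K a) := by
    rw [map_sub]; ring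
  have h2 := A.valuation.map_sub_lt h' h
  rw [← e, h1] at h2
  exact lt_irrefl _ h2

private theorem Cg.val (hk : ∀ c : k, algebraMap k K c ∈ A) {y : K} {a : k} (h : Cg A y a) (ha : a ≠ 0) :
    A.valuation y = 1 := by
  refine le_antisymm (h.val_le hk) ?_
  by_contra hlt
  rw [not_le] at hlt
  apply ha
  refine h.unique hk ?_
  unfold Cg
  rw [map_zero, sub_zero]; exact hlt

variable {p : ℕ} [Fact p.Prime] [CharP k p]

private theorem char_add (k : Type) [Field k] [CharP k p] (K : Type) [Field K] [Algebra k K] (y : K) : (1 + y) ^ p = 1 + y ^ p := by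
  have : CharP K p := charP_of_injective_algebraMap (algebraMap k K).injective p
  rw [add_pow_char, one_pow]


/-- residues of the small roots -/
private theorem small_res (hk : ∀ c : k, algebraMap k K c ∈ A)
    (hres : ∀ y ∈ A, ∃ a : k, Cg A y a) {x y : K} (hx0 : x ≠ 0) {h : ℕ}
    (hy : y ^ 2 = x ^ (2 * h) * (1 + y) ^ p) (hv : A.valuation y < 1) :
    ∃ a : k, a ^ 2 = 1 ∧ Cg A (y / x ^ h) a := by
  have hp1 : p ≠ 0 := (Fact.out : p.Prime).ne_zero
  have hxh : x ^ h ≠ 0 := pow_ne_zero _ hx0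
  have h1 : (y / x ^ h) ^ 2 = 1 + y ^ p := by
    rw [div_pow, hy, ← char_add k K y, ← pow_mul, mul_comm h 2, mul_div_assoc, mul_comm,
      div_mul_cancel₀]
    exact pow_ne_zero _ hx0
  have h2 : A.valuation (y ^ p) < 1 := by
    rw [map_pow]; exact pow_lt_one₀ zero_le hv hp1
  have h3 : Cg A ((y / x ^ h) ^ 2) (1 : k) := by
    unfold Cg
    rw [h1, map_one, add_sub_cancel_left]; exact h2
  have h4 : y / x ^ h ∈ A := by
    rw [← A.valuation_le_one_iff]
    have h5 := h3.val_le hk
    rw [map_pow] at h5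
    exact (pow_le_one_iff_of_nonneg zero_le two_ne_zero).1 h5
  obtain ⟨a, ha⟩ := hres _ h4
  exact ⟨a, (ha.pow hk 2).unique hk h3, ha⟩

private theorem small_inj (hk : ∀ c : k, algebraMap k K c ∈ A) (hp2 : (2 : k) ≠ 0)
    {x y z : K} (hx0 : x ≠ 0) (hx : A.valuation x < 1) {h : ℕ} (hh : h ≠ 0)
    (hy : y ^ 2 = x ^ (2 * h) * (1 + y) ^ p) (hz : z ^ 2 = x ^ (2 * h) * (1 + z) ^ p) {a : k} (ha0 : a ≠ 0)
    (ha : Cg A (y / x ^ h) a) (hb : Cg A (z / x ^ h) a) : y = z := by
  by_contra hyz
  have hchar : CharP K p := charP_of_injective_algebraMap (algebraMap k K).injective p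
  have hxh : x ^ h ≠ 0 := pow_ne_zero _ hx0
  have hp1 : 1 ≤ p := (Fact.out : p.Prime).one_le
  set κ := y / x ^ h with hκ
  set μ := z / x ^ h with hμ
  have e1 : y = x ^ h * κ := by rw [hκ]; field_simp
  have e2 : z = x ^ h * μ := by rw [hμ]; field_simp
  have hne : κ - μ ≠ 0 := by
    intro h0
    exact hyz (by rw [e1, e2, sub_eq_zero.1 h0])
  have h1 : (κ - μ) * (κ + μ) = (κ - μ) * ((x ^ h) ^ p * (κ - μ) ^ (p - 1)) := by
    have h2 : (x ^ h) ^ 2 * ((κ - μ) * (κ + μ)) = (x ^ h) ^ 2 * ((x ^ h) ^ p * (κ - μ) ^ p) := by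
      have h3 : y ^ 2 - z ^ 2 = x ^ (2 * h) * (y - z) ^ p := by
        rw [hy, hz, char_add k K y, char_add k K z, sub_pow_char]
        ring
      have h4 : y - z = x ^ h * (κ - μ) := by rw [e1, e2]; ring
      calc (x ^ h) ^ 2 * ((κ - μ) * (κ + μ)) = y ^ 2 - z ^ 2 := by rw [e1, e2]; ring
        _ = x ^ (2 * h) * (y - z) ^ p := h3
        _ = (x ^ h) ^ 2 * ((x ^ h) ^ p * (κ - μ) ^ p) := by
          rw [h4, mul_pow, mul_comm 2 h, pow_mul x h 2]
    have h5 := mul_left_cancel₀ (pow_ne_zero 2 hxh) h2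
    rw [h5]
    obtain ⟨q, rfl⟩ : ∃ q, p = q + 1 := ⟨p - 1, by omega⟩
    rw [Nat.add_sub_cancel, pow_succ (κ - μ) q]
    ring
  have h2 := mul_left_cancel₀ hne h1
  have h3 : A.valuation (κ + μ) = 1 := (ha.add hb).val hk (by
    rw [← two_mul]; exact mul_ne_zero hp2 ha0)
  have h4 : A.valuation ((x ^ h) ^ p * (κ - μ) ^ (p - 1)) < 1 := by
    rw [map_mul]
    refine mul_lt_one_of_lt_of_le ?_ ?_
    · rw [← pow_mul, map_pow]
      exact pow_lt_one₀ zero_le hx (Nat.mul_ne_zero hh (by omega))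
    · rw [map_pow]
      refine pow_le_one₀ zero_le ?_
      exact (A.valuation.map_sub _ _).trans (max_le (ha.val_le hk) (hb.val_le hk))
  rw [← h2, h3] at h4
  exact lt_irrefl _ h4

/-- residues of the big roots -/
private theorem big_eq (k : Type) [Field k] [CharP k p] [Algebra k K] {x y : K} (hx0 : x ≠ 0) (hy0 : y ≠ 0) {n g : ℕ} (hn : n + 2 = p)
    (hy : y ^ 2 = x ^ (n * g) * (1 + y) ^ p) : (y⁻¹ / x ^ g) ^ n = 1 + y⁻¹ ^ p := by
  rw [← char_add k K y⁻¹]
  have h1 : (1 + y⁻¹) ^ p = y⁻¹ ^ p * (1 + y) ^ p := by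
    rw [← mul_pow]; congr 1; field_simp; ring
  have h2 : (1 + y) ^ p = y ^ 2 * (x ^ (n * g))⁻¹ := by
    rw [hy]; field_simp
  rw [h1, h2, div_pow, ← pow_mul, mul_comm g n, ← hn, pow_add]
  field_simp

private theorem big_res (hk : ∀ c : k, algebraMap k K c ∈ A)
    (hres : ∀ y ∈ A, ∃ a : k, Cg A y a) {x y : K} (hx0 : x ≠ 0) (hy0 : y ≠ 0) {n g : ℕ} (hn : n + 2 = p)
    (hn0 : n ≠ 0)
    (hy : y ^ 2 = x ^ (n * g) * (1 + y) ^ p) (hv : A.valuation y⁻¹ < 1) :
    ∃ a : k, a ^ n = 1 ∧ Cg A (y⁻¹ / x ^ g) a := by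
  have hp1 : p ≠ 0 := (Fact.out : p.Prime).ne_zero
  have h1 := big_eq k hx0 hy0 hn hy
  have h2 : A.valuation (y⁻¹ ^ p) < 1 := by
    rw [map_pow]; exact pow_lt_one₀ zero_le hv hp1
  have h3 : Cg A ((y⁻¹ / x ^ g) ^ n) (1 : k) := by
    unfold Cg
    rw [h1, map_one, add_sub_cancel_left]; exact h2
  have h4 : y⁻¹ / x ^ g ∈ A := by
    rw [← A.valuation_le_one_iff]
    have h5 := h3.val_le hk
    rw [map_pow] at h5
    exact (pow_le_one_iff_of_nonneg zero_le hn0).1 h5
  obtain ⟨a, ha⟩ := hres _ h4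
  exact ⟨a, (ha.pow hk n).unique hk h3, ha⟩

private theorem big_inj (hk : ∀ c : k, algebraMap k K c ∈ A) 
    {x y z : K} (hx0 : x ≠ 0) (hx : A.valuation x < 1) {n g : ℕ} (hn : n + 2 = p)
    (hnk : (n : k) ≠ 0) (hg : g ≠ 0) (hy0 : y ≠ 0) (hz0 : z ≠ 0)
    (hy : y ^ 2 = x ^ (n * g) * (1 + y) ^ p) (hz : z ^ 2 = x ^ (n * g) * (1 + z) ^ p) {a : k} (ha0 : a ≠ 0)
    (ha : Cg A (y⁻¹ / x ^ g) a) (hb : Cg A (z⁻¹ / x ^ g) a) : y = z := by
  by_contra hyz
  have hchar : CharP K p := charP_of_injective_algebraMap (algebraMap k K).injective p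
  have hxh : x ^ g ≠ 0 := pow_ne_zero _ hx0
  have hp1 : 1 ≤ p := (Fact.out : p.Prime).one_le
  have h1 := big_eq k hx0 hy0 hn hy
  have h2 := big_eq k hx0 hz0 hn hz
  set κ := y⁻¹ / x ^ g with hκ
  set μ := z⁻¹ / x ^ g with hμ
  have e1 : y⁻¹ = x ^ g * κ := by rw [hκ]; field_simp
  have e2 : z⁻¹ = x ^ g * μ := by rw [hμ]; field_simp
  have hne : κ - μ ≠ 0 := by
    intro h0
    apply hyz
    rw [← inv_inj, e1, e2, sub_eq_zero.1 h0]
  have h3 : (κ - μ) * (∑ i ∈ Finset.range n, κ ^ i * μ ^ (n - 1 - i)) =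
      (κ - μ) * ((x ^ g) ^ p * (κ - μ) ^ (p - 1)) := by
    rw [mul_comm (κ - μ) (∑ i ∈ Finset.range n, κ ^ i * μ ^ (n - 1 - i)), geom_sum₂_mul, h1, h2,
      add_sub_add_left_eq_sub, ← sub_pow_char]
    have h4 : y⁻¹ - z⁻¹ = x ^ g * (κ - μ) := by rw [e1, e2]; ring
    rw [h4, mul_pow]
    obtain ⟨q, rfl⟩ : ∃ q, p = q + 1 := ⟨p - 1, by omega⟩
    rw [Nat.add_sub_cancel, pow_succ (κ - μ) q]
    ring
  have h4 := mul_left_cancel₀ hne h3
  have h5 : Cg A (∑ i ∈ Finset.range n, κ ^ i * μ ^ (n - 1 - i)) ((n : k) * a ^ (n - 1)) := by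
    have h6 : (n : k) * a ^ (n - 1) = ∑ i ∈ Finset.range n, a ^ i * a ^ (n - 1 - i) := by
      rw [Finset.sum_congr rfl (fun i hi => by
        rw [← pow_add, Nat.add_sub_cancel' (by have := Finset.mem_range.1 hi; omega)] : ∀ i ∈ Finset.range n,
          a ^ i * a ^ (n - 1 - i) = a ^ (n - 1))]
      rw [Finset.sum_const, Finset.card_range, nsmul_eq_mul]
    rw [h6]
    exact Cg.sum _ _ _ fun i _ => (ha.pow hk i).mul hk (hb.pow hk _)
  have h6 := h5.val hk (mul_ne_zero hnk (pow_ne_zero _ ha0))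
  have h7 : A.valuation ((x ^ g) ^ p * (κ - μ) ^ (p - 1)) < 1 := by
    rw [map_mul]
    refine mul_lt_one_of_lt_of_le ?_ ?_
    · rw [← pow_mul, map_pow]
      exact pow_lt_one₀ zero_le hx (Nat.mul_ne_zero hg (by omega))
    · rw [map_pow]
      refine pow_le_one₀ zero_le ?_
      exact (A.valuation.map_sub _ _).trans (max_le (ha.val_le hk) (hb.val_le hk))
  rw [← h4, h6] at h7
  exact lt_irrefl _ h7

end core

/-- the permutation of the roots -/
private theorem core_perm {k K : Type} [Field k] [Field K] [Algebra k K] (A : ValuationSubring K) {p : ℕ}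
    [Fact p.Prime] [CharP k p] (hp5 : 5 ≤ p) (hk : ∀ c : k, algebraMap k K c ∈ A)
    (hres : ∀ y ∈ A, ∃ a : k, y - algebraMap k K a ∈ A.nonunits) {x : K} (hx0 : x ≠ 0)
    (hx : A.valuation x < 1) (r : Fin p → K) (hinj : Function.Injective r)
    (hroot : ∀ i, r i ^ 2 = x ^ (2 * (p - 2) * (p - 1)) * (1 + r i) ^ p)
    (hall : ∀ y, y ^ 2 = x ^ (2 * (p - 2) * (p - 1)) * (1 + y) ^ p → ∃ i, y = r i) (c : k)
    (hc : c ^ (p - 1) = -1) (δ : K ≃+* K) (hδk : ∀ a : k, δ (algebraMap k K a) = algebraMap k K a)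
    (hδx : δ x = algebraMap k K c * x) (hδA : ∀ y ∈ A, δ y - y ∈ A.nonunits) :
    ∃ s : Equiv.Perm (Fin p), s.IsSwap ∧ ∀ i, δ (r i) = r (s i) := by
  classical
  have hpp : p.Prime := Fact.out
  have hres' : ∀ y ∈ A, ∃ a : k, Cg A y a := fun y hy => by
    obtain ⟨a, ha⟩ := hres y hy
    exact ⟨a, (A.mem_nonunits_iff).1 ha⟩
  have hδC : ∀ (y : K) (a : k), Cg A y a → Cg A (δ y) a := by
    intro y a h
    have hy : y ∈ A := (A.valuation_le_one_iff _).1 (h.val_le hk)
    have h1 := (A.mem_nonunits_iff).1 (hδA y hy)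
    unfold Cg at *
    have e : δ y - algebraMap k K a = (δ y - y) + (y - algebraMap k K a) := by ring
    rw [e]
    exact A.valuation.map_add_lt h1 h
  -- the exponents
  obtain ⟨n, hn⟩ : ∃ n, n + 2 = p := ⟨p - 2, by omega⟩
  have hn0 : n ≠ 0 := by omega
  have hpn : p - 2 = n := by omega
  have hodd : Odd n := by
    have h2 : Odd p := hpp.odd_of_ne_two (by omega)
    rcases Nat.even_or_odd n with he | ho
    · exact absurd h2 (Nat.not_odd_iff_even.2 (by rw [← hn]; exact he.add (by decide)))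
    · exact ho
  set h : ℕ := n * (p - 1) with hh
  set g : ℕ := 2 * (p - 1) with hg
  have hh0 : h ≠ 0 := Nat.mul_ne_zero hn0 (by omega)
  have hg0 : g ≠ 0 := by omega
  have hN1 : 2 * (p - 2) * (p - 1) = 2 * h := by rw [hh, hpn]; ring
  have hN2 : 2 * (p - 2) * (p - 1) = n * g := by rw [hg, hpn]; ring
  have hch : c ^ h = -1 := by rw [hh, mul_comm, pow_mul, hc, hodd.neg_one_pow]
  have hcg : c ^ g = 1 := by rw [hg, mul_comm, pow_mul, hc]; norm_num
  have h2k : (2 : k) ≠ 0 := by
    intro h0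
    have h1 : ((2 : ℕ) : k) = 0 := by exact_mod_cast h0
    rw [CharP.cast_eq_zero_iff k p] at h1
    exact absurd (Nat.le_of_dvd (by norm_num) h1) (by omega)
  have hnk : (n : k) ≠ 0 := by
    intro h0
    rw [CharP.cast_eq_zero_iff k p] at h0
    exact absurd (Nat.le_of_dvd (by omega) h0) (by omega)
  have hr0 : ∀ i, r i ≠ 0 := by
    intro i h0
    have h1 := hroot i
    rw [h0, add_zero, one_pow, mul_one, zero_pow two_ne_zero] at h1
    exact pow_ne_zero _ hx0 h1.symm
  have hroot1 : ∀ i, r i ^ 2 = x ^ (2 * h) * (1 + r i) ^ p := fun i => by rw [← hN1]; exact hroot i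
  have hroot2 : ∀ i, r i ^ 2 = x ^ (n * g) * (1 + r i) ^ p := fun i => by rw [← hN2]; exact hroot i
  have hvinv : ∀ y : K, y ≠ 0 → (A.valuation y⁻¹ < 1 ↔ 1 < A.valuation y) := by
    intro y hy
    have h4 : 0 < A.valuation y := zero_lt_iff.2 ((_root_.map_ne_zero _).2 hy)
    rw [map_inv₀, inv_lt_one₀ h4]
  have hv1 : ∀ i, A.valuation (r i) ≠ 1 := by
    intro i h1
    have h2 : A.valuation (1 + r i) ≤ 1 := (A.valuation.map_add _ _).trans (max_le (by rw [map_one]) h1.le)
    have h3 : A.valuation (r i ^ 2) < 1 := by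
      rw [hroot1 i, map_mul]
      refine mul_lt_one_of_lt_of_le ?_ ?_
      · rw [map_pow]; exact pow_lt_one₀ zero_le hx (by omega)
      · rw [map_pow]; exact pow_le_one₀ zero_le h2
    rw [map_pow, h1, one_pow] at h3
    exact lt_irrefl _ h3
  have hcase : ∀ i, A.valuation (r i) < 1 ∨ A.valuation (r i)⁻¹ < 1 := by
    intro i
    rcases lt_or_gt_of_ne (hv1 i) with h1 | h1
    · exact Or.inl h1
    · exact Or.inr ((hvinv _ (hr0 i)).2 h1)
  have hex : ∀ i, ∃ a : k, (A.valuation (r i) < 1 ∧ a ^ 2 = 1 ∧ Cg A (r i / x ^ h) a) ∨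
      (A.valuation (r i)⁻¹ < 1 ∧ a ^ n = 1 ∧ Cg A ((r i)⁻¹ / x ^ g) a) := by
    intro i
    rcases hcase i with h1 | h1
    · obtain ⟨a, ha, ha'⟩ := small_res (p := p) hk hres' hx0 (hroot1 i) h1
      exact ⟨a, Or.inl ⟨h1, ha, ha'⟩⟩
    · obtain ⟨a, ha, ha'⟩ := big_res (p := p) hk hres' hx0 (hr0 i) hn hn0 (hroot2 i) h1
      exact ⟨a, Or.inr ⟨h1, ha, ha'⟩⟩
  choose f hf using hex
  have hS : ∀ i, A.valuation (r i) < 1 → f i ^ 2 = 1 ∧ Cg A (r i / x ^ h) (f i) := by
    intro i h1
    rcases hf i with h2 | h2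
    · exact h2.2
    · exact absurd ((hvinv _ (hr0 i)).1 h2.1) (not_lt.2 h1.le)
  have hB : ∀ i, A.valuation (r i)⁻¹ < 1 → f i ^ n = 1 ∧ Cg A ((r i)⁻¹ / x ^ g) (f i) := by
    intro i h1
    rcases hf i with h2 | h2
    · exact absurd ((hvinv _ (hr0 i)).1 h1) (not_lt.2 h2.1.le)
    · exact h2.2
  have hf0 : ∀ i, f i ≠ 0 := by
    intro i h0
    rcases hf i with h2 | h2
    · have h3 := h2.2.1
      rw [h0, zero_pow two_ne_zero] at h3
      exact zero_ne_one h3
    · have h3 := h2.2.1
      rw [h0, zero_pow hn0] at h3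
      exact zero_ne_one h3
  set Sm : Finset (Fin p) := Finset.univ.filter fun i => A.valuation (r i) < 1 with hSm
  set Bg : Finset (Fin p) := Finset.univ.filter fun i => ¬ A.valuation (r i) < 1 with hBg
  have hBgv : ∀ i ∈ Bg, A.valuation (r i)⁻¹ < 1 := fun i hi =>
    (hcase i).resolve_left (Finset.mem_filter.1 hi).2
  have hcardB : Bg.card ≤ n := by
    have h1 : Bg.card ≤ (nthRoots n (1 : k)).toFinset.card := by
      refine Finset.card_le_card_of_injOn f ?_ ?_
      · intro i hi
        rw [Finset.mem_coe, Multiset.mem_toFinset, mem_nthRoots (Nat.pos_of_ne_zero hn0)]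
        exact (hB i (hBgv i hi)).1
      · intro i hi j hj hij
        have h2 := (hB i (hBgv i hi)).2
        have h3 := (hB j (hBgv j hj)).2
        exact hinj (big_inj (p := p) hk hx0 hx hn hnk hg0 (hr0 i) (hr0 j) (hroot2 i) (hroot2 j) (hf0 i) h2
          (by rw [← hij] at h3; exact h3))
    exact h1.trans ((Multiset.toFinset_card_le _).trans (card_nthRoots n (1 : k)))
  have hcardS : 1 < Sm.card := by
    have h1 : Sm.card + Bg.card = p := by
      rw [hSm, hBg, Finset.card_filter_add_card_filter_not, Finset.card_univ, Fintype.card_fin]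
    omega
  obtain ⟨i0, hi0, i1, hi1, h01⟩ := Finset.one_lt_card.1 hcardS
  have hi0v := (Finset.mem_filter.1 hi0).2
  have hi1v := (Finset.mem_filter.1 hi1).2
  have hSinj : ∀ i j, A.valuation (r i) < 1 → A.valuation (r j) < 1 → f i = f j → i = j := by
    intro i j h1 h2 hij
    have h3 := (hS j h2).2
    exact hinj (small_inj (p := p) hk h2k hx0 hx hh0 (hroot1 i) (hroot1 j) (hf0 i) (hS i h1).2
      (by rw [← hij] at h3; exact h3))
  have hpm : ∀ a b : k, a ^ 2 = 1 → b ^ 2 = 1 → a ≠ b → b = -a := by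
    intro a b ha hb hab
    have h1 : (a - b) * (a + b) = 0 := by
      have : (a - b) * (a + b) = a ^ 2 - b ^ 2 := by ring
      rw [this, ha, hb, sub_self]
    rcases mul_eq_zero.1 h1 with h2 | h2
    · exact absurd (sub_eq_zero.1 h2) hab
    · exact (neg_eq_of_add_eq_zero_right h2).symm
  have hf01 : f i1 = - f i0 := hpm _ _ (hS i0 hi0v).1 (hS i1 hi1v).1 fun h1 =>
    h01 (hSinj _ _ hi0v hi1v h1)
  have honly : ∀ i, A.valuation (r i) < 1 → i = i0 ∨ i = i1 := by
    intro i h1
    by_cases h2 : f i = f i0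
    · exact Or.inl (hSinj _ _ h1 hi0v h2)
    · right
      refine hSinj _ _ h1 hi1v ?_
      rw [hf01]
      exact hpm _ _ (hS i0 hi0v).1 (hS i h1).1 (Ne.symm h2)
  -- the images of the roots
  have himg : ∀ i, ∃ j, δ (r i) = r j := by
    intro i
    refine hall _ ?_
    rw [← map_pow, hroot i, map_mul, map_pow, map_pow, map_add, map_one, hδx, mul_pow, ← map_pow, hN2,
      mul_comm n g, pow_mul c, hcg, one_pow, map_one, one_mul]
  have hsmall : ∀ i, A.valuation (r i) < 1 → ∀ j, δ (r i) = r j → A.valuation (r j) < 1 ∧ f j = - f i := by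
    intro i hi j hj
    have h1 := hδC _ _ (hS i hi).2
    have h2 : r j / x ^ h = algebraMap k K (-1) * δ (r i / x ^ h) := by
      rw [map_div₀, hj, map_pow, hδx, mul_pow, ← map_pow, hch, map_neg, map_one]
      field_simp
    have h3 : Cg A (r j / x ^ h) (-1 * f i) := by
      rw [h2]
      refine Cg.mul hk ?_ h1
      unfold Cg
      rw [sub_self, map_zero]; exact zero_lt_one
    have h4 : r j = x ^ h * (r j / x ^ h) := by field_simp
    have h5 : A.valuation (r j) < 1 := by
      rw [h4, map_mul]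
      refine mul_lt_one_of_lt_of_le ?_ (h3.val_le hk)
      rw [map_pow]; exact pow_lt_one₀ zero_le hx hh0
    exact ⟨h5, by rw [(hS j h5).2.unique hk h3]; ring⟩
  have hbig : ∀ i, ¬ A.valuation (r i) < 1 → δ (r i) = r i := by
    intro i hi
    obtain ⟨j, hj⟩ := himg i
    have hi' := (hcase i).resolve_left hi
    have h1 := hδC _ _ (hB i hi').2
    have h2 : (r j)⁻¹ / x ^ g = δ ((r i)⁻¹ / x ^ g) := by
      rw [map_div₀, map_inv₀, hj, map_pow, hδx, mul_pow, ← map_pow, hcg, map_one, one_mul]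
    rw [← h2] at h1
    rw [hj]
    exact big_inj (p := p) hk hx0 hx hn hnk hg0 (hr0 j) (hr0 i) (hroot2 j) (hroot2 i) (hf0 i) h1 (hB i hi').2
  refine ⟨Equiv.swap i0 i1, ⟨i0, i1, h01, rfl⟩, fun i => ?_⟩
  by_cases hi : A.valuation (r i) < 1
  · rcases honly i hi with rfl | rfl
    · obtain ⟨j, hj⟩ := himg i
      obtain ⟨h1, h2⟩ := hsmall i hi j hj
      rw [Equiv.swap_apply_left, hj]
      rcases honly j h1 with h3 | h3
      · exfalso
        rw [h3] at h2
        rw [h2] at hf01
        have h4 : (2 : k) * f i = 0 := by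
          have : f i + f i = 0 := by
            nth_rewrite 1 [h2]
            ring
          rw [two_mul]; exact this
        exact (mul_ne_zero h2k (hf0 i)) h4
      · rw [h3]
    · obtain ⟨j, hj⟩ := himg i
      obtain ⟨h1, h2⟩ := hsmall i hi j hj
      rw [Equiv.swap_apply_right, hj]
      rcases honly j h1 with h3 | h3
      · rw [h3]
      · exfalso
        rw [h3] at h2
        have h4 : (2 : k) * f i = 0 := by
          have : f i + f i = 0 := by
            nth_rewrite 1 [h2]
            ring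
          rw [two_mul]; exact this
        exact (mul_ne_zero h2k (hf0 i)) h4
  · have h0 : i ≠ i0 := fun h1 => hi (by rw [h1]; exact hi0v)
    have h1 : i ≠ i1 := fun h1 => hi (by rw [h1]; exact hi1v)
    rw [Equiv.swap_apply_of_ne_of_ne h0 h1]
    exact hbig i hi


end aux

variable {p : ℕ} [Fact p.Prime] {k : Type} [Field k] [IsAlgClosed k] [CharP k p]
variable {L : Type} [Field L] [Algebra (RatFunc k) L] [FiniteDimensional (RatFunc k) L]
  [IsGalois (RatFunc k) L] (r : Fin p → L) (hinj : Function.Injective r)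
  (hroot : ∀ i, TR p (tX k L) (r i)) (hall : ∀ y : L, TR p (tX k L) y → ∃ i, y = r i)
  (hgen : IntermediateField.adjoin (RatFunc k) (Set.range r) = ⊤) (hprod : ∏ i, r i = -1)
  (hder : ∀ i, -2 * r i = tX k L ^ tN p * ∏ j ∈ Finset.univ.erase i, (r i - r j))

/-- the polynomial with the given roots -/
private noncomputable def TP (p : ℕ) (k : Type) [Field k] : Polynomial (RatFunc k) :=
  Polynomial.C (RatFunc.X ^ tN p) * (1 + Polynomial.X) ^ p - Polynomial.X ^ 2

omit [IsAlgClosed k] [CharP k p] [FiniteDimensional (RatFunc k) L] [IsGalois (RatFunc k) L] [Fact p.Prime] in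
private theorem TP_root (y : L) : Polynomial.aeval y (TP p k) = 0 ↔ TR p (tX k L) y := by
  unfold TP TR tX
  rw [map_sub, map_mul, Polynomial.aeval_C, map_pow, map_pow, map_add, map_one, Polynomial.aeval_X, map_pow,
    Polynomial.aeval_X, sub_eq_zero]
  exact eq_comm

omit [IsAlgClosed k] [CharP k p] in
private theorem TP_degree (hp5 : 5 ≤ p) : (TP p k).natDegree = p ∧ TP p k ≠ 0 := by
  have h1 : (1 + Polynomial.X : Polynomial (RatFunc k)) = Polynomial.X + Polynomial.C 1 := by
    rw [Polynomial.C_1, add_comm]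
  have h2 : (Polynomial.C (RatFunc.X ^ tN p : RatFunc k) * (1 + Polynomial.X) ^ p).natDegree = p := by
    rw [Polynomial.natDegree_C_mul (pow_ne_zero _ RatFunc.X_ne_zero), h1, Polynomial.natDegree_pow,
      Polynomial.natDegree_X_add_C, mul_one]
  have h3 : (TP p k).natDegree = p := by
    unfold TP
    rw [Polynomial.natDegree_sub_eq_left_of_natDegree_lt, h2]
    rw [h2, Polynomial.natDegree_X_pow]; omega
  refine ⟨h3, fun h0 => ?_⟩
  rw [h0, Polynomial.natDegree_zero] at h3
  omega

include hinj hroot in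
omit [IsAlgClosed k] [CharP k p] [FiniteDimensional (RatFunc k) L] [IsGalois (RatFunc k) L] in
private theorem TP_splits (hp5 : 5 ≤ p) : ((TP p k).map (algebraMap (RatFunc k) L)).Splits := by
  classical
  rw [Polynomial.splits_iff_card_roots, Polynomial.natDegree_map, (TP_degree hp5).1]
  have h0 : (TP p k).map (algebraMap (RatFunc k) L) ≠ 0 :=
    (Polynomial.map_ne_zero_iff (algebraMap (RatFunc k) L).injective).2 (TP_degree hp5).2
  apply le_antisymm
  · refine (Polynomial.card_roots' _).trans ?_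
    rw [Polynomial.natDegree_map, (TP_degree hp5).1]
  · calc p = (Finset.univ.image r).card := by
          rw [Finset.card_image_of_injective _ hinj, Finset.card_univ, Fintype.card_fin]
      _ ≤ ((TP p k).map (algebraMap (RatFunc k) L)).roots.toFinset.card := by
          refine Finset.card_le_card ?_
          intro y hy
          obtain ⟨i, _, rfl⟩ := Finset.mem_image.1 hy
          rw [Multiset.mem_toFinset, Polynomial.mem_roots h0, Polynomial.IsRoot,
            Polynomial.eval_map_algebraMap]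
          exact (TP_root (r i)).2 (hroot i)
      _ ≤ _ := Multiset.toFinset_card_le _

include hinj hroot hall hgen in
theorem tri_swap (hp5 : 5 ≤ p) : ∃ (δ : L ≃+* L) (s : Equiv.Perm (Fin p)), s.IsSwap ∧
    (∀ i, δ (r i) = r (s i)) ∧
    ∀ σ : L ≃ₐ[RatFunc k] L, ∃ σ' : L ≃ₐ[RatFunc k] L, ∀ y, σ' y = δ (σ (δ.symm y)) := by
  classical
  obtain ⟨c, hc⟩ : ∃ c : k, c ^ (p - 1) = -1 := IsAlgClosed.exists_pow_nat_eq (-1 : k) (by omega)
  have hc0 : c ≠ 0 := by
    rintro rfl
    rw [zero_pow (by omega)] at hc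
    exact (neg_ne_zero.2 one_ne_zero) hc.symm
  have hcN : c ^ tN p = 1 := by
    rw [tN, mul_comm, pow_mul, hc, pow_mul]; norm_num
  obtain ⟨δ0, hδ0k, hδ0X⟩ := exists_delta0 c hc0
  have hPδ : (TP p k).map (δ0 : RatFunc k →+* RatFunc k) = TP p k := by
    unfold TP
    rw [Polynomial.map_sub, Polynomial.map_mul, Polynomial.map_C, Polynomial.map_pow, Polynomial.map_add,
      Polynomial.map_one, Polynomial.map_X, Polynomial.map_pow, Polynomial.map_X]
    have h1 : (δ0 : RatFunc k →+* RatFunc k) (RatFunc.X ^ tN p) = RatFunc.X ^ tN p := by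
      change δ0 (RatFunc.X ^ tN p) = _
      rw [map_pow, hδ0X, mul_pow, ← map_pow, hcN, map_one, one_mul]
    rw [h1]
  obtain ⟨δ1, hδ1⟩ := exists_delta (L := L) δ0 (TP p k) (TP_degree hp5).2 hPδ
    (TP_splits r hinj hroot hp5) (Set.range r) (by
      rintro _ ⟨i, rfl⟩
      exact (TP_root (r i)).2 (hroot i)) hgen
  -- the algebra structure over `k`
  let _ : Algebra k L := ((algebraMap (RatFunc k) L).comp (algebraMap k (RatFunc k))).toAlgebra
  have _ : IsScalarTower k (RatFunc k) L := IsScalarTower.of_algebraMap_eq fun _ => rfl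
  have hkL : ∀ a : k, algebraMap k L a = algebraMap (RatFunc k) L (algebraMap k (RatFunc k) a) := fun _ => rfl
  have hFF : FF k L := ff_of_algebraic k L
  obtain ⟨V, hVk, hVX, hVt⟩ := exists_zero_place k
  obtain ⟨A, hA, hAV⟩ := exists_place_extension (k := k) (L := RatFunc k) (Ω := L) V ⟨hVt, hVk⟩
  have hx0 : tX k L ≠ 0 := (_root_.map_ne_zero _).2 RatFunc.X_ne_zero
  have hnon : ∀ (B : ValuationSubring L) (z : RatFunc k), z ∈ (B.comap (algebraMap (RatFunc k) L)).nonunits ↔
      algebraMap (RatFunc k) L z ∈ B.nonunits := by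
    intro B z
    rw [ValuationSubring.mem_nonunits_iff_or, ValuationSubring.mem_nonunits_iff_or,
      ValuationSubring.mem_comap, map_inv₀, map_eq_zero]
  have hxA : tX k L ∈ A.nonunits := by
    have h1 := hVX
    rw [← hAV, hnon] at h1
    exact h1
  have hδ1k : ∀ a : k, δ1 (algebraMap k L a) = algebraMap k L a := fun a => by
    rw [hkL, hδ1, hδ0k]
  have hδ1X : δ1 (tX k L) = algebraMap k L c * tX k L := by
    rw [tX, hδ1, hδ0X, map_mul]; rfl
  -- the transported place
  let A' : ValuationSubring L := A.comap (δ1 : L →+* L)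
  have hA'mem : ∀ y, y ∈ A' ↔ δ1 y ∈ A := fun y => Iff.rfl
  have hA' : IsPlace k A' := by
    refine ⟨fun h => hA.1 ?_, fun a => ?_⟩
    · rw [eq_top_iff]
      intro y _
      have h1 : δ1.symm y ∈ A' := by rw [h]; trivial
      rw [hA'mem, RingEquiv.apply_symm_apply] at h1
      exact h1
    · rw [hA'mem, hδ1k]; exact hA.2 a
  have hxA' : tX k L ∈ A'.nonunits := by
    have h1 : algebraMap k L c * tX k L ∈ A.nonunits := by
      rw [ValuationSubring.mem_nonunits_iff] at hxA ⊢
      rw [map_mul]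
      rw [mul_comm]
      exact mul_lt_one_of_lt_of_le hxA ((A.valuation_le_one_iff _).2 (hA.2 c))
    rw [ValuationSubring.mem_nonunits_iff_or] at h1 ⊢
    right
    rw [hA'mem, map_inv₀, hδ1X]
    rcases h1 with h1 | h1
    · exact absurd h1 (mul_ne_zero ((_root_.map_ne_zero _).2 hc0) hx0)
    · exact h1
  have hcm : A.comap (algebraMap (RatFunc k) L) = A'.comap (algebraMap (RatFunc k) L) := by
    have h1 : ∀ a : k, algebraMap k (RatFunc k) a ∈ A'.comap (algebraMap (RatFunc k) L) := fun a => by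
      rw [ValuationSubring.mem_comap]; exact hA'.2 a
    have h2 : RatFunc.X ∈ (A'.comap (algebraMap (RatFunc k) L)).nonunits := by
      rw [hnon]; exact hxA'
    rw [hAV]
    exact le_antisymm (zero_place_le V _ hVk hVX h1 h2) (zero_place_le _ V h1 h2 hVk hVX)
  obtain ⟨σ0, hσ0⟩ := places_transitive (k := k) (M := RatFunc k) hFF A A' hA hA' hcm
  -- the corrected automorphism
  let δ : L ≃+* L := σ0.toRingEquiv.trans δ1
  have hδ : ∀ y, δ y = δ1 (σ0 y) := fun y => rfl
  have hδmem : ∀ y, y ∈ A → δ y ∈ A := by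
    intro y hy
    rw [hδ, ← hA'mem, ← hσ0]
    exact ValuationSubring.smul_mem_pointwise_smul σ0 y A hy
  have hδF : ∀ z : RatFunc k, δ (algebraMap (RatFunc k) L z) = algebraMap (RatFunc k) L (δ0 z) := by
    intro z
    rw [hδ, AlgEquiv.commutes, hδ1]
  have hδk : ∀ a : k, δ (algebraMap k L a) = algebraMap k L a := fun a => by
    rw [hkL, hδF, hδ0k]
  have hδX : δ (tX k L) = algebraMap k L c * tX k L := by
    rw [tX, hδF, hδ0X, map_mul]; rfl
  have hδA : ∀ y ∈ A, δ y - y ∈ A.nonunits := by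
    intro y hy
    obtain ⟨a, ha⟩ := residue hFF A hA y hy
    have h1 : δ (y - algebraMap k L a) ∈ A.nonunits := by
      rw [ValuationSubring.mem_nonunits_iff_or] at ha ⊢
      rcases ha with ha | ha
      · left; rw [ha, map_zero]
      · right
        intro h
        apply ha
        rw [← map_inv₀, hδ, ← hA'mem, ← hσ0] at h
        exact (ValuationSubring.smul_mem_pointwise_smul_iff (g := σ0)).1 h
    rw [ValuationSubring.mem_nonunits_iff] at h1 ha ⊢
    have e : δ y - y = δ (y - algebraMap k L a) - (y - algebraMap k L a) := by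
      rw [map_sub, hδk]; ring
    rw [e]
    exact A.valuation.map_sub_lt h1 ha
  obtain ⟨s, hs, hs'⟩ := core_perm A hp5 hA.2 (fun y hy => residue hFF A hA y hy) hx0
    ((A.mem_nonunits_iff).1 hxA) r hinj hroot hall c hc δ hδk hδX hδA
  refine ⟨δ, s, hs, hs', fun σ => ?_⟩
  refine ⟨AlgEquiv.ofRingEquiv (f := (δ.symm.trans σ.toRingEquiv).trans δ) ?_, fun y => rfl⟩
  intro z
  change δ (σ (δ.symm (algebraMap (RatFunc k) L z))) = algebraMap (RatFunc k) L z
  have h1 : δ.symm (algebraMap (RatFunc k) L z) = algebraMap (RatFunc k) L (δ0.symm z) := by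
    rw [RingEquiv.symm_apply_eq, hδF, RingEquiv.apply_symm_apply]
  rw [h1, AlgEquiv.commutes, hδF, RingEquiv.apply_symm_apply]


end Pool.Agent.Helper54.TJ
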