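import Pool.Agent.Helper54.TJ.Defs
import Pool.Agent.Helper54.PW.Final
import Pool.Agent.Helper54.SL.Main

/-!
# TRI-01: the splitting field of the trinomial

`N = tN p = 2 (p-2) (p-1)`, `TR p x y : y ^ 2 = x ^ N * (1 + y) ^ p` (characteristic `p`, so `(1+y)^p = 1 + y^p`).
For the valuation facts see Helper18/PW/Places1.lean (ff_of_algebraic, exists_place_extension, val_const), `residue`
(every `a` in `A` is congruent to a constant), `stab_sub_mem_nonunits` of Helper54/PW/Main2.lean (`σ a - a` is a nonunit for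
`a ∈ A`, `σ` stabilizing `A`), and the use of the SL modules in Helper54/SL/Main.lean.  `|.| = A.valuation`, `x = tX k L`.

PROOF.
`P = C (X^N) (1+Y)^p - Y^2` over `RatFunc k`: degree `p`, leading coefficient `X^N`, `P' = -2Y` (characteristic `p`),
`P(0) = X^N ≠ 0`, so `P` is separable (a common root `y` of `P`, `P'` would have `-2y = 0`, `y = 0`).  `L` = splitting field; the
roots are indexed by `Fin p` (the root set has `p` elements).  `P = X^N ∏ (Y - r_i)`: evaluate at `0` (`∏ r_i = (-1)^p = -1`)
and differentiate at `r_i` (the derivative of `X^N ∏ (Y - r_j)` at `r_i` is `X^N ∏_{j ≠ i} (r_i - r_j)`).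
-/

set_option autoImplicit false
set_option linter.unusedVariables false
set_option linter.unusedSectionVars false
open scoped Pointwise

namespace Pool.Agent.Helper54.TJ

open Pool.Agent.Helper54.PW Pool.Agent.Helper54.SL Pool.Agent.Helper54.FP

section triaux
open Polynomial

theorem tri_poly {p : ℕ} [Fact p.Prime] (hp5 : 5 ≤ p) (K : Type) [Field K] [CharP K p] (c : K)
    (hc : c ≠ 0) :
    ∃ (L : Type) (_ : Field L) (_ : Algebra K L), FiniteDimensional K L ∧ IsGalois K L ∧
      ∃ r : Fin p → L, Function.Injective r ∧ (∀ i, r i ^ 2 = algebraMap K L c * (1 + r i) ^ p) ∧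
      (∀ y : L, y ^ 2 = algebraMap K L c * (1 + y) ^ p → ∃ i, y = r i) ∧
      IntermediateField.adjoin K (Set.range r) = ⊤ ∧ ∏ i, r i = -1 ∧
      ∀ i, -2 * r i = algebraMap K L c * ∏ j ∈ Finset.univ.erase i, (r i - r j) := by
  classical
  have hp : p.Prime := Fact.out
  have h2 : (2 : K) ≠ 0 := by
    intro h
    have h1 : ((2 : ℕ) : K) = 0 := by exact_mod_cast h
    have h3 := (CharP.cast_eq_zero_iff K p 2).1 h1
    have h4 := Nat.le_of_dvd (by norm_num) h3
    omega
  have : CharP K[X] p := inferInstance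
  obtain ⟨P, hPd⟩ : ∃ P : K[X], P = C c * (1 + X) ^ p - X ^ 2 := ⟨_, rfl⟩
  have hP : P = C c * X ^ p - X ^ 2 + C c := by
    rw [hPd, add_pow_char]
    ring
  have hdeg : P.natDegree = p := by
    rw [hP]
    have h5 : p ≠ 2 := by omega
    have h6 : p ≠ 0 := by omega
    compute_degree!
    all_goals first | omega | exact hc | (simp [hc, h5, h6])
  have hlc : P.leadingCoeff = c := by
    rw [leadingCoeff, hdeg, hP]
    have h5 : p ≠ 2 := by omega
    have h6 : p ≠ 0 := by omega
    simp [coeff_X_pow, coeff_C, h5, h6]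
  have hP0 : P ≠ 0 := by
    intro h
    rw [h, leadingCoeff_zero] at hlc
    exact hc hlc.symm
  have hder : derivative P = - (C 2 * X) := by
    rw [hP]
    have e0 : derivative (X ^ p : K[X]) = 0 := by
      rw [derivative_X_pow, CharP.cast_eq_zero, C_0, zero_mul]
    rw [derivative_add, derivative_sub, derivative_C_mul, e0, derivative_C, derivative_X_pow]
    simp
  have hsep : P.Separable := by
    rw [separable_def]
    refine ⟨C c⁻¹, C (2⁻¹ : K) * (X ^ (p - 1) - C c⁻¹ * X), ?_⟩
    rw [hder, hP]
    have e1 : C c⁻¹ * C c = (1 : K[X]) := by rw [← C_mul, inv_mul_cancel₀ hc, C_1]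
    have e2 : C (2⁻¹ : K) * C 2 = (1 : K[X]) := by rw [← C_mul, inv_mul_cancel₀ h2, C_1]
    have e3 : (X : K[X]) ^ p = X ^ (p - 1) * X := by
      rw [← pow_succ]; congr 1; omega
    rw [e3]
    linear_combination (X ^ (p - 1) * X + 1) * e1 - (X ^ (p - 1) - C c⁻¹ * X) * X * e2
  obtain ⟨L, iF, iA, iS⟩ : ∃ (L : Type) (_ : Field L) (_ : Algebra K L), IsSplittingField K L P :=
    ⟨P.SplittingField, inferInstance, inferInstance, inferInstance⟩
  have hspl : (P.map (algebraMap K L)).Splits := IsSplittingField.splits L P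
  have hcard : Fintype.card (P.rootSet L) = p := by
    rw [card_rootSet_eq_natDegree hsep hspl, hdeg]
  let e := (Fintype.equivFinOfCardEq hcard).symm
  have hadj : IntermediateField.adjoin K (P.rootSet L) = ⊤ :=
    (isSplittingField_iff_intermediateField.1 inferInstance).2
  have hroot : ∀ y : L, y ∈ P.rootSet L ↔ y ^ 2 = algebraMap K L c * (1 + y) ^ p := by
    intro y
    rw [mem_rootSet_of_ne hP0, hPd]
    simp only [map_sub, map_mul, aeval_C, map_pow, map_add, map_one, aeval_X, sub_eq_zero]
    exact eq_comm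
  have hrng : Set.range (fun i => (e i : L)) = P.rootSet L := by
    ext y
    constructor
    · rintro ⟨i, rfl⟩
      exact (e i).2
    · intro hy
      exact ⟨e.symm ⟨y, hy⟩, by simp⟩
  have hinj : Function.Injective (fun i => (e i : L)) := fun i j h => e.injective (Subtype.ext h)
  have hc' : algebraMap K L c ≠ 0 := by
    rw [Ne, FaithfulSMul.algebraMap_eq_zero_iff]
    exact hc
  have hfac : P.map (algebraMap K L) = C (algebraMap K L c) * ∏ i, (X - C (e i : L)) := by
    have hmon : (∏ i, (X - C (e i : L))).Monic := monic_prod_of_monic _ _ fun i _ => monic_X_sub_C _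
    have hd2 : (C (algebraMap K L c) * ∏ i, (X - C (e i : L))).degree = p := by
      rw [degree_C_mul hc', degree_prod]
      simp
    have hd1 : (P.map (algebraMap K L)).degree = p := by
      rw [degree_map, degree_eq_natDegree hP0, hdeg]
    refine eq_of_degree_sub_lt_of_eval_index_eq (v := fun i => (e i : L)) Finset.univ
      hinj.injOn ?_ ?_
    · rw [Finset.card_univ, Fintype.card_fin, ← hd1]
      refine degree_sub_lt_left (hd1.trans hd2.symm) ((Polynomial.map_ne_zero hP0)) ?_
      rw [leadingCoeff_map, hlc, leadingCoeff_mul, leadingCoeff_C, hmon.leadingCoeff, mul_one]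
    · intro i _
      have h1 : eval (e i : L) (P.map (algebraMap K L)) = 0 := by
        rw [eval_map_algebraMap]
        exact ((mem_rootSet_of_ne hP0).1 (e i).2)
      rw [h1, eval_mul, eval_prod, Finset.prod_eq_zero (Finset.mem_univ i), mul_zero]
      simp
  refine ⟨L, iF, iA, IsSplittingField.finiteDimensional L P,
    IsGalois.of_separable_splitting_field hsep, fun i => (e i : L), hinj, fun i => (hroot _).1 (e i).2,
    fun y hy => ?_, ?_, ?_, ?_⟩
  · have h1 : y ∈ Set.range (fun i => (e i : L)) := by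
      rw [hrng]
      exact (hroot y).2 hy
    obtain ⟨i, hi⟩ := h1
    exact ⟨i, hi.symm⟩
  · rw [hrng]; exact hadj
  · have hE : eval 0 (P.map (algebraMap K L)) = algebraMap K L c := by
      rw [hPd]
      simp
    have h1 := congrArg (eval 0) hfac
    rw [hE] at h1
    simp only [eval_sub, eval_mul, eval_C, eval_X, eval_prod, zero_sub] at h1
    have h3 : (∏ i, -(e i : L)) = 1 := by
      apply mul_left_cancel₀ hc'
      rw [← h1]
      ring
    have hodd : Odd p := hp.odd_of_ne_two (by omega)
    rw [Finset.prod_neg] at h3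
    rw [Finset.card_univ, Fintype.card_fin, hodd.neg_one_pow] at h3
    linear_combination -h3
  · intro i
    have h1 := congrArg (fun Q => eval (e i : L) (derivative Q)) hfac
    beta_reduce at h1
    rw [derivative_map, hder, ← Finset.mul_prod_erase _ _ (Finset.mem_univ i)] at h1
    have h4 : C (algebraMap K L c) * ((X - C (e i : L)) * ∏ x ∈ Finset.univ.erase i, (X - C (e x : L)))
      = (X - C (e i : L)) * (C (algebraMap K L c) * ∏ x ∈ Finset.univ.erase i, (X - C (e x : L))) := by
      ring
    rw [h4, derivative_mul] at h1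
    simp only [Polynomial.map_neg, Polynomial.map_mul, map_C, map_X, eval_neg, eval_mul, eval_C,
      eval_X, eval_add, eval_sub, sub_self, zero_mul, add_zero, derivative_sub, derivative_X,
      derivative_C, sub_zero, one_mul, eval_prod] at h1
    have h5 : algebraMap K L 2 = 2 := map_ofNat _ 2
    rw [h5] at h1
    rw [← h1]
    ring

end triaux

variable {p : ℕ} [Fact p.Prime]

theorem tri_exists (hp5 : 5 ≤ p) (k : Type) [Field k] [IsAlgClosed k] [CharP k p] :
    ∃ (L : Type) (_ : Field L) (_ : Algebra (RatFunc k) L), FiniteDimensional (RatFunc k) L ∧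
      IsGalois (RatFunc k) L ∧ ∃ r : Fin p → L, Function.Injective r ∧
        (∀ i, TR p (tX k L) (r i)) ∧ (∀ y : L, TR p (tX k L) y → ∃ i, y = r i) ∧
        IntermediateField.adjoin (RatFunc k) (Set.range r) = ⊤ ∧ ∏ i, r i = -1 ∧
        ∀ i, -2 * r i = tX k L ^ tN p * ∏ j ∈ Finset.univ.erase i, (r i - r j) := by
  have : CharP (RatFunc k) p :=
    charP_of_injective_algebraMap (algebraMap k (RatFunc k)).injective p
  obtain ⟨L, iF, iA, hfd, hgal, r, hinj, h1, h2, h3, h4, h5⟩ := tri_poly hp5 (RatFunc k)
    (RatFunc.X ^ tN p) (pow_ne_zero _ RatFunc.X_ne_zero)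
  have e : algebraMap (RatFunc k) L (RatFunc.X ^ tN p) = tX k L ^ tN p := by
    rw [map_pow]; rfl
  rw [e] at h1 h2 h5
  exact ⟨L, iF, iA, hfd, hgal, r, hinj, h1, h2, h3, h4, h5⟩

end Pool.Agent.Helper54.TJ
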